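import Pool.Agent.Helper34.HRV.Defs
import Pool.Agent.Helper92.HRU.BDefs

/-! HRV bridge piece W1 (project HRT, MP_2370de_an; hints: `/team-store/HRV_hints2.md`). Replace the `sorry`s in place. -/

set_option autoImplicit false

namespace Pool.Agent.Helper34.HRV

open MeasureTheory Complex Set
open scoped ComplexConjugate Real ENNReal
open Pool.Agent.Helper92.HRU (Par L2 AdmX X0 AA TT Q Qc Qp Qm ln al kerf kap ee eb cf sf ze Lam Wc En Iy Qs IsTrial)

private theorem w1_del (P : Par) : |P.del| ≤ 1 / 100 := by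
  have h1 : |P.del| ≤ (P.L ^ 40)⁻¹ := P.hdel
  have h2 : (100 : ℝ) ≤ P.L ^ 40 := by
    have h3 : (1 : ℝ) ≤ P.L := by linarith [P.hL]
    calc (100 : ℝ) ≤ P.L := P.hL
      _ = P.L ^ 1 := (pow_one _).symm
      _ ≤ P.L ^ 40 := pow_le_pow_right₀ h3 (by norm_num)
  refine h1.trans ?_
  rw [one_div]
  exact inv_anti₀ (by norm_num) h2

private theorem w1_Pt_dist (P : Par) {n m : ℤ} (h : n < m) :
    Pool.Agent.Helper92.HRU.Pt P n + 1 ≤ Pool.Agent.Helper92.HRU.Pt P m := by
  have h1 := abs_le.1 (w1_del P)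
  have h2 : ((n : ℤ) : ℝ) + 1 ≤ (m : ℝ) := by exact_mod_cast h
  have h3 := Real.pi_gt_three
  unfold Pool.Agent.Helper92.HRU.Pt
  have h4 : π * (n : ℝ) + 3 ≤ π * (m : ℝ) := by nlinarith
  split_ifs <;> linarith

/-- W1. Integration over the neighbourhoods of the lines. -/
theorem lines_lint (P : Par) (F : ℝ → ℝ≥0∞) (hF : Measurable F) :
    ∫⁻ x in Qs P, F x = ∑' n : ℤ, ∫⁻ y in Iy, F (Pool.Agent.Helper92.HRU.Pt P n + y) := by
  unfold Pool.Agent.Helper92.HRU.Qs
  rw [lintegral_iUnion (fun n => measurableSet_Ioo)]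
  · refine tsum_congr fun n => ?_
    have h1 := (measurePreserving_add_left (volume : Measure ℝ)
      (Pool.Agent.Helper92.HRU.Pt P n)).setLIntegral_comp_preimage
      (s := Ioo (Pool.Agent.Helper92.HRU.Pt P n - 1 / 20) (Pool.Agent.Helper92.HRU.Pt P n + 1 / 20))
      measurableSet_Ioo hF
    rw [← h1]
    have h2 : (fun x => Pool.Agent.Helper92.HRU.Pt P n + x) ⁻¹'
        Ioo (Pool.Agent.Helper92.HRU.Pt P n - 1 / 20) (Pool.Agent.Helper92.HRU.Pt P n + 1 / 20) =
        Iy := by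
      rw [Set.preimage_const_add_Ioo]
      unfold Pool.Agent.Helper92.HRU.Iy
      congr 1 <;> ring
    rw [h2]
  · intro n m hnm
    rw [Function.onFun, Set.disjoint_left]
    intro x hx hx'
    rcases lt_or_gt_of_ne hnm with h | h
    · have h1 := w1_Pt_dist P h
      linarith [hx.2, hx'.1]
    · have h1 := w1_Pt_dist P h
      linarith [hx.1, hx'.2]

private theorem w1_f_meas (f : L2) : Measurable (f : ℝ → ℂ) := (Lp.stronglyMeasurable f).measurable

theorem ln_meas (P : Par) (f : L2) (n : ℤ) : Measurable (ln P f n) := by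
  unfold Pool.Agent.Helper92.HRU.ln
  have h1 : Measurable fun y : ℝ => (f : ℝ → ℂ) (Pool.Agent.Helper92.HRU.Pt P n + y) :=
    (w1_f_meas f).comp (measurable_const_add _)
  exact h1.indicator measurableSet_Ioo

private theorem w1_norm (f : L2) : ENNReal.ofReal (‖f‖ ^ 2) = ∫⁻ x, ‖f x‖ₑ ^ 2 := by
  rw [ENNReal.ofReal_pow (norm_nonneg _), ofReal_norm, Lp.enorm_def,
    eLpNorm_eq_lintegral_rpow_enorm_toReal (by norm_num) (by norm_num)]
  rw [ENNReal.toReal_ofNat, ← ENNReal.rpow_natCast, ← ENNReal.rpow_mul]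
  norm_num

private theorem w1_Qs_meas (P : Par) : MeasurableSet (Qs P) := by
  unfold Pool.Agent.Helper92.HRU.Qs
  exact MeasurableSet.iUnion fun n => measurableSet_Ioo

/-- The norm of a vector supported near the lines. -/
theorem norm_lines (P : Par) (f : L2) (hf : Q P f = f) :
    ENNReal.ofReal (‖f‖ ^ 2) = ∑' n : ℤ, ∫⁻ y, ‖ln P f n y‖ₑ ^ 2 := by
  rw [w1_norm]
  have hB : Pool.Agent.Helper92.HRU.BddM ((Qs P).indicator fun _ => (1 : ℂ)) := by
    refine ⟨measurable_const.indicator (w1_Qs_meas P), 1, fun x => ?_⟩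
    by_cases h : x ∈ Qs P
    · rw [Set.indicator_of_mem h]; simp
    · rw [Set.indicator_of_notMem h]; simp
  have h1 : (f : ℝ → ℂ) =ᵐ[volume] fun x => (Qs P).indicator (fun _ => (1 : ℂ)) x * f x := by
    have h2 := Pool.Agent.Helper92.HRU.mulOp_coe hB f
    have h3 : Pool.Agent.Helper92.HRU.mulOp ((Qs P).indicator fun _ => (1 : ℂ)) f = f := hf
    rw [h3] at h2
    exact h2
  have h2 : ∫⁻ x, ‖f x‖ₑ ^ 2 = ∫⁻ x in Qs P, ‖f x‖ₑ ^ 2 := by
    rw [← lintegral_indicator (w1_Qs_meas P)]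
    refine lintegral_congr_ae ?_
    filter_upwards [h1] with x hx
    by_cases h : x ∈ Qs P
    · rw [Set.indicator_of_mem h]
    · rw [Set.indicator_of_notMem h] at hx ⊢
      rw [hx]
      simp
  rw [h2, lines_lint P (fun x => ‖f x‖ₑ ^ 2) ((w1_f_meas f).enorm.pow_const 2)]
  refine tsum_congr fun n => ?_
  rw [← lintegral_indicator (by unfold Pool.Agent.Helper92.HRU.Iy; exact measurableSet_Ioo)]
  refine lintegral_congr fun y => ?_
  unfold Pool.Agent.Helper92.HRU.ln Pool.Agent.Helper92.HRU.Iy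
  by_cases h : y ∈ Ioo (-(1 / 20) : ℝ) (1 / 20)
  · rw [Set.indicator_of_mem h, Set.indicator_of_mem h]
  · rw [Set.indicator_of_notMem h, Set.indicator_of_notMem h]
    simp

theorem ln_lin (P : Par) (f : L2) (n : ℤ) : Lin (ln P f n) := by
  refine ⟨ln_meas P f n, ?_, ?_⟩
  · unfold Pool.Agent.Helper92.HRU.ln
    have h1 : MemLp (fun y : ℝ => (f : ℝ → ℂ) (Pool.Agent.Helper92.HRU.Pt P n + y)) 2 volume :=
      (Lp.memLp f).comp_measurePreserving
        (measurePreserving_add_left (volume : Measure ℝ) (Pool.Agent.Helper92.HRU.Pt P n))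
    have h2 : MemLp (fun y : ℝ => (f : ℝ → ℂ) (Pool.Agent.Helper92.HRU.Pt P n + y)) 2
        (volume.restrict (Ioo (-(1 / 20) : ℝ) (1 / 20))) := h1.restrict _
    have h3 : IntegrableOn (fun y : ℝ => (f : ℝ → ℂ) (Pool.Agent.Helper92.HRU.Pt P n + y))
        (Ioo (-(1 / 20) : ℝ) (1 / 20)) volume := by
      have hfin : IsFiniteMeasure (volume.restrict (Ioo (-(1 / 20) : ℝ) (1 / 20))) := by
        refine ⟨?_⟩
        rw [Measure.restrict_apply_univ, Real.volume_Ioo]
        exact ENNReal.ofReal_lt_top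
      exact h2.integrable (by norm_num)
    exact h3.integrable_indicator measurableSet_Ioo
  · intro y hy
    unfold Pool.Agent.Helper92.HRU.ln at hy
    by_contra hcon
    apply hy
    rw [Set.indicator_of_notMem]
    rintro ⟨h1, h2⟩
    exact hcon (abs_lt.2 ⟨h1, h2⟩)

end Pool.Agent.Helper34.HRV
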