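import Pool.Agent.Helper34.HRV.Defs
import Pool.Agent.Helper34.HRV.St.L1
import Pool.Agent.Helper92.HRU.BDefs
import Pool.Agent.Helper34.HRV.Wt.W1
import Pool.Agent.Helper92.HRU.Pf.PQ1
import Pool.Agent.Helper92.HRU.Pf.PN1

/-! HRV bridge piece W2 (project HRT, MP_2370de_an). -/

set_option autoImplicit false

namespace Pool.Agent.Helper34.HRV

open MeasureTheory Complex Set
open scoped ComplexConjugate Real ENNReal
open Pool.Agent.Helper92.HRU (Par L2 AdmX X0 AA TT Q Qc Qp Qm ln al kerf kap ee eb cf sf ze Lam Wc En Iy Qs IsTrial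
  gf mulOp_coe inner_eq meas_Qs bddM_gf gf_le bddM_ind)

/-- `f = Q f` vanishes a.e. off the lines -/
theorem off_lines (P : Par) (f : L2) (hf : Q P f = f) :
    ∀ᵐ x : ℝ, x ∉ Qs P → (f : ℝ → ℂ) x = 0 := by
  have h := mulOp_coe (bddM_ind (meas_Qs P)) f
  have h2 : (Q P f : ℝ → ℂ) =ᵐ[volume] fun x => (Qs P).indicator (fun _ => (1 : ℂ)) x * f x := h
  rw [hf] at h2
  filter_upwards [h2] with x hx hxs
  rw [hx, indicator_of_notMem hxs, zero_mul]

theorem Pt_gap (P : Par) {n m : ℤ} (h : n ≠ m) : 31 / 10 ≤ |Pt P.del n - Pt P.del m| := by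
  have hd : |P.del| ≤ 1 / 10 ^ 80 := Pool.Agent.Helper92.HRU.Par.del_le' P
  have h1 : |dl P.del n| ≤ |P.del| := by
    unfold dl; split_ifs
    · simp
    · exact le_rfl
  have h2 : |dl P.del m| ≤ |P.del| := by
    unfold dl; split_ifs
    · simp
    · exact le_rfl
  -- the difference of the displacements is at most `|δ|`
  have h3 : |dl P.del n - dl P.del m| ≤ 2 * |P.del| := by
    refine (abs_sub _ _).trans ?_
    linarith
  have h4 : Pt P.del n - Pt P.del m = π * ((n : ℝ) - m) + (dl P.del n - dl P.del m) := by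
    unfold Pt; ring
  have h5 : (1 : ℝ) ≤ |(n : ℝ) - m| := by
    have : (1 : ℤ) ≤ |n - m| := Int.one_le_abs (sub_ne_zero.2 h)
    have h6 : ((1 : ℤ) : ℝ) ≤ ((|n - m| : ℤ) : ℝ) := by exact_mod_cast this
    simpa using h6
  have h6 : |π * ((n : ℝ) - m)| = π * |(n : ℝ) - m| := by
    rw [abs_mul, abs_of_pos Real.pi_pos]
  have h7 : |π * ((n : ℝ) - m)| - |dl P.del n - dl P.del m| ≤
      |π * ((n : ℝ) - m) + (dl P.del n - dl P.del m)| := by
    have := abs_sub_abs_le_abs_sub (π * ((n : ℝ) - m)) (-(dl P.del n - dl P.del m))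
    rw [abs_neg, sub_neg_eq_add] at this
    exact this
  rw [h4]
  have hpi := Real.pi_gt_d4
  have : π * 1 ≤ π * |(n : ℝ) - m| := mul_le_mul_of_nonneg_left h5 Real.pi_pos.le
  norm_num at hd
  rw [h6] at h7
  linarith [h7, h3, this]

theorem mem_Qs_iff (P : Par) (x : ℝ) : x ∈ Qs P ↔ ∃ n : ℤ, |x - Pt P.del n| < 1 / 20 := by
  simp only [Qs, mem_iUnion, mem_Ioo]
  refine exists_congr fun n => ?_
  have : Pool.Agent.Helper92.HRU.Pt P n = Pt P.del n := rfl
  rw [this, abs_lt]
  constructor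
  · rintro ⟨h1, h2⟩; constructor <;> linarith
  · rintro ⟨h1, h2⟩; constructor <;> linarith

/-- `kerf` near the line `n` -/
theorem kerf_near (P : Par) {M : ℝ} {k : ℝ → ℂ} (hk : Ker M k) (f : L2) (hf : Q P f = f) (n : ℤ)
    (ρ : ℝ) (hρ : |ρ| < 31 / 20) :
    kerf k f (Pt P.del n + ρ) = Xl k (Pt P.del n) (ln P f n) ρ := by
  have h0 : kerf k f (Pt P.del n + ρ) =
      ∫ u, (k u * exp (I * ((cc u * ((Pt P.del n + ρ) - u / 2) : ℝ) : ℂ))
        + conj (k (-u)) * exp (-(I * ((cc u * ((Pt P.del n + ρ) - u / 2) : ℝ) : ℂ)))) *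
        f ((Pt P.del n + ρ) - u) := by
    unfold kerf
    rw [← integral_indicator measurableSet_Ioo]
    refine integral_congr_ae (ae_of_all _ fun u => ?_)
    simp only [indicator]
    split_ifs with hu
    · rfl
    · have h1 : ¬ (1 / 2 < |u| ∧ |u| < 3 / 2) := by
        rintro ⟨h1, h2⟩
        apply hu
        rw [abs_lt] at h2
        constructor <;> linarith [h2.1, h2.2]
      have h2 : k u = 0 := by
        by_contra h; exact h1 (hk.supp u h)
      have h3 : k (-u) = 0 := by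
        by_contra h
        have := hk.supp (-u) h
        rw [abs_neg] at this
        exact h1 this
      rw [h2, h3]
      simp
  rw [h0]
  have h1 : (∫ u, (k u * exp (I * ((cc u * ((Pt P.del n + ρ) - u / 2) : ℝ) : ℂ))
        + conj (k (-u)) * exp (-(I * ((cc u * ((Pt P.del n + ρ) - u / 2) : ℝ) : ℂ)))) *
        f ((Pt P.del n + ρ) - u)) =
      ∫ y, (k (ρ - y) * exp (I * ((cc (ρ - y) * ((Pt P.del n + ρ) - (ρ - y) / 2) : ℝ) : ℂ))
        + conj (k (-(ρ - y))) * exp (-(I * ((cc (ρ - y) * ((Pt P.del n + ρ) - (ρ - y) / 2) : ℝ) : ℂ)))) *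
        f ((Pt P.del n + ρ) - (ρ - y)) :=
    (integral_sub_left_eq_self (fun u => (k u * exp (I * ((cc u * ((Pt P.del n + ρ) - u / 2) : ℝ) : ℂ))
        + conj (k (-u)) * exp (-(I * ((cc u * ((Pt P.del n + ρ) - u / 2) : ℝ) : ℂ)))) *
        f ((Pt P.del n + ρ) - u)) volume ρ).symm
  rw [h1]
  unfold Xl
  have hoff : ∀ᵐ y : ℝ, Pt P.del n + y ∉ Qs P → (f : ℝ → ℂ) (Pt P.del n + y) = 0 := by
    have := (measurePreserving_add_left volume (Pt P.del n)).quasiMeasurePreserving.ae
      (off_lines P f hf)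
    exact this
  refine integral_congr_ae ?_
  filter_upwards [hoff] with y hy
  have e1 : Pt P.del n + ρ - (ρ - y) = Pt P.del n + y := by ring
  have e2 : Pt P.del n + ρ - (ρ - y) / 2 = Pt P.del n + (ρ + y) / 2 := by ring
  have e3 : -(ρ - y) = y - ρ := by ring
  rw [e1, e2, e3, mul_comm I]
  by_cases hyI : y ∈ Ioo (-(1 / 20) : ℝ) (1 / 20)
  · rw [ln, indicator_of_mem hyI]
    rfl
  · rw [ln, indicator_of_notMem hyI, mul_zero]
    by_cases hk1 : k (ρ - y) = 0 ∧ k (y - ρ) = 0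
    · rw [hk1.1, hk1.2]; simp
    · have h2 : |ρ - y| < 3 / 2 := by
        rw [not_and_or] at hk1
        rcases hk1 with h | h
        · exact (hk.supp _ h).2
        · have := (hk.supp _ h).2
          rwa [abs_sub_comm] at this
      rw [hy, mul_zero]
      intro hmem
      rw [mem_Qs_iff] at hmem
      obtain ⟨m, hm⟩ := hmem
      by_cases hmn : n = m
      · subst hmn
        apply hyI
        rw [add_sub_cancel_left, abs_lt] at hm
        exact hm
      · have := Pt_gap P hmn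
        rw [abs_lt] at h2 hρ hm
        rcases le_abs.1 this with h3 | h3 <;> linarith [h2.1, h2.2, hρ.1, hρ.2, hm.1, hm.2]

/-- `kerf` vanishes far from the lines -/
theorem kerf_far (P : Par) {M : ℝ} {k : ℝ → ℂ} (hk : Ker M k) (f : L2) (hf : Q P f = f) (x : ℝ)
    (hx : ∀ n : ℤ, 31 / 20 ≤ |x - Pt P.del n|) : kerf k f x = 0 := by
  unfold kerf
  have hoff : ∀ᵐ u : ℝ, x - u ∉ Qs P → (f : ℝ → ℂ) (x - u) = 0 := by
    have := (Measure.measurePreserving_sub_left volume x).quasiMeasurePreserving.ae (off_lines P f hf)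
    exact this
  refine integral_eq_zero_of_ae (ae_restrict_of_ae ?_)
  filter_upwards [hoff] with u hu
  simp only [Pi.zero_apply]
  by_cases hk1 : k u = 0 ∧ k (-u) = 0
  · rw [hk1.1, hk1.2]; simp
  · have h2 : |u| < 3 / 2 := by
      rw [not_and_or] at hk1
      rcases hk1 with h | h
      · exact (hk.supp _ h).2
      · have := (hk.supp _ h).2
        rwa [abs_neg] at this
    rw [hu, mul_zero]
    intro hmem
    rw [mem_Qs_iff] at hmem
    obtain ⟨m, hm⟩ := hmem
    have := hx m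
    rw [abs_lt] at h2 hm
    rcases le_abs.1 this with h3 | h3 <;> linarith [h2.1, h2.2, hm.1, hm.2]

/-- the multiplier `G` near the line `n` -/
theorem gf_near (P : Par) (n : ℤ) (ρ : ℝ) (h1 : 9 / 20 < |ρ|) (h2 : |ρ| < 31 / 20) :
    gf P (Pt P.del n + ρ) = ((-(sg n * (2 * Real.sin (ρ + dl P.del n))⁻¹) : ℝ) : ℂ) := by
  have hmem : Pt P.del n + ρ ∉ Qs P := by
    rw [mem_Qs_iff]
    rintro ⟨m, hm⟩
    by_cases hmn : n = m
    · subst hmn
      rw [add_sub_cancel_left] at hm
      linarith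
    · have := Pt_gap P hmn
      rw [abs_lt] at h2 hm
      rcases le_abs.1 this with h3 | h3 <;> linarith [h2.1, h2.2, hm.1, hm.2]
  rw [gf, indicator_of_mem (show Pt P.del n + ρ ∈ (Qs P)ᶜ from hmem)]
  congr 1
  have hcos : Real.cos (Pt P.del n + ρ) = -(sg n * Real.sin (ρ + dl P.del n)) := by
    have e : Pt P.del n + ρ = ((ρ + dl P.del n) + n * π) + π / 2 := by unfold Pt; ring
    rw [e, Real.cos_add_pi_div_two, Real.sin_add_int_mul_pi]
    unfold sg
    split_ifs with hn
    · rw [hn.neg_one_zpow]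
    · rw [Int.not_even_iff_odd] at hn
      rw [hn.neg_one_zpow]
  rw [hcos]
  have hs : sg n = 1 ∨ sg n = -1 := by unfold sg; split_ifs <;> simp
  rcases hs with h | h <;> rw [h] <;> simp [mul_comm]

/-- W2. `T(f,f)` as a sum over the lines. -/
theorem TT_lines (P : Par) (ξ : ℝ → ℂ) (M : ℝ) (k : ℝ → ℂ) (hk : Ker M k) (f : L2)
    (hf : Q P f = f) (hX : (X0 ξ f : ℝ → ℂ) =ᵐ[volume] kerf k f) :
    HasSum (fun n => sg n * Tl k (Pt P.del n) (dl P.del n) (ln P f n)) (TT P ξ f f).re := by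
  set h : ℝ → ℂ := (X0 ξ f : ℝ → ℂ) with hh
  -- the integrand
  have hint : Integrable (fun x => (gf P x).re * ‖h x‖ ^ 2) := by
    have h1 : Integrable (fun x => ‖h x‖ ^ 2) :=
      (memLp_two_iff_integrable_sq_norm (Lp.aestronglyMeasurable _)).1 (Lp.memLp (X0 ξ f))
    refine (h1.const_mul 11).mono' ?_ (ae_of_all _ fun x => ?_)
    · have hm : Measurable (gf P) := (bddM_gf P).1
      exact (Complex.measurable_re.comp hm).aestronglyMeasurable.mul h1.aestronglyMeasurable
    · rw [norm_mul, Real.norm_of_nonneg (by positivity : (0 : ℝ) ≤ ‖h x‖ ^ 2), Real.norm_eq_abs]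
      have := (abs_re_le_norm (gf P x)).trans (gf_le P x)
      gcongr
  have hTT : (TT P ξ f f).re = ∫ x, (gf P x).re * ‖h x‖ ^ 2 := by
    have h1 : TT P ξ f f = ∫ x, conj (h x) * (gf P x * h x) := by
      rw [TT, inner_eq]
      refine integral_congr_ae ?_
      filter_upwards [mulOp_coe (bddM_gf P) (X0 ξ f)] with x hx
      rw [show (Pool.Agent.Helper92.HRU.G P (X0 ξ f) : ℝ → ℂ) x = gf P x * (X0 ξ f : ℝ → ℂ) x from hx]
    have h2 : ∀ x, conj (h x) * (gf P x * h x) = (((gf P x).re * ‖h x‖ ^ 2 : ℝ) : ℂ) := by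
      intro x
      have h3 : gf P x = (((gf P x).re : ℝ) : ℂ) := by
        unfold gf
        simp only [indicator]
        split_ifs
        · rw [ofReal_re]
        · simp
      rw [h3]
      push_cast
      rw [ofReal_re, ← Complex.conj_mul']
      ring
    rw [h1, integral_congr_ae (ae_of_all _ h2), integral_complex_ofReal, ofReal_re]
  -- the cells
  set s : ℤ → Set ℝ := fun n => Ioo (Pt P.del n - 31 / 20) (Pt P.del n + 31 / 20) with hs
  have hsd : Pairwise (Function.onFun Disjoint s) := by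
    intro n m hnm
    rw [Function.onFun, Set.disjoint_left]
    intro x hx hx'
    have := Pt_gap P hnm
    simp only [hs, mem_Ioo] at hx hx'
    rcases le_abs.1 this with h3 | h3 <;> linarith [hx.1, hx.2, hx'.1, hx'.2]
  have hzero : ∀ᵐ x : ℝ, x ∉ ⋃ n, s n → (gf P x).re * ‖h x‖ ^ 2 = 0 := by
    filter_upwards [hX] with x hx hxs
    have : kerf k f x = 0 := by
      refine kerf_far P hk f hf x fun n => ?_
      by_contra hlt
      rw [not_le, abs_lt] at hlt
      apply hxs
      rw [mem_iUnion]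
      exact ⟨n, by constructor <;> linarith [hlt.1, hlt.2]⟩
    rw [hx, this]
    simp
  have hsum := hasSum_integral_iUnion (μ := volume) (f := fun x => (gf P x).re * ‖h x‖ ^ 2)
    (fun n => (measurableSet_Ioo : MeasurableSet (s n))) hsd hint.integrableOn
  have htot : ∫ x in ⋃ n, s n, (gf P x).re * ‖h x‖ ^ 2 = (TT P ξ f f).re := by
    rw [hTT]
    refine setIntegral_eq_integral_of_ae_compl_eq_zero ?_
    filter_upwards [hzero] with x hx hxs
    exact hx hxs
  rw [htot] at hsum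
  have cell_eq : ∀ n : ℤ, sg n * Tl k (Pt P.del n) (dl P.del n) (ln P f n) =
      ∫ x in s n, (gf P x).re * ‖h x‖ ^ 2 := by
    intro n
    -- one cell
    have hcell : ∫ x in s n, (gf P x).re * ‖h x‖ ^ 2 =
        ∫ ρ in Ioo (-(31 / 20) : ℝ) (31 / 20), (gf P (Pt P.del n + ρ)).re * ‖h (Pt P.del n + ρ)‖ ^ 2 := by
      have hpre : (fun ρ => Pt P.del n + ρ) ⁻¹' (s n) = Ioo (-(31 / 20) : ℝ) (31 / 20) := by
        ext ρ
        simp only [hs, mem_preimage, mem_Ioo]
        constructor <;> rintro ⟨h1, h2⟩ <;> constructor <;> linarith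
      rw [← hpre]
      exact ((measurePreserving_add_left volume (Pt P.del n)).setIntegral_preimage_emb
        (measurableEmbedding_addLeft _) (fun x => (gf P x).re * ‖h x‖ ^ 2) (s n)).symm
    rw [hcell]
    have hX' : ∀ᵐ ρ : ℝ, h (Pt P.del n + ρ) = kerf k f (Pt P.del n + ρ) :=
      (measurePreserving_add_left volume (Pt P.del n)).quasiMeasurePreserving.ae hX
    have hL := Xl_facts (p := Pt P.del n) hk (ln_lin P f n)
    have hstep : ∫ ρ in Ioo (-(31 / 20) : ℝ) (31 / 20),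
        (gf P (Pt P.del n + ρ)).re * ‖h (Pt P.del n + ρ)‖ ^ 2 =
        ∫ ρ in Ioo (-(31 / 20) : ℝ) (31 / 20), (-(sg n)) * ((2 * Real.sin (ρ + dl P.del n))⁻¹ *
          ‖Xl k (Pt P.del n) (ln P f n) ρ‖ ^ 2) := by
      refine setIntegral_congr_ae measurableSet_Ioo ?_
      filter_upwards [hX'] with ρ hρ hmem
      have hab : |ρ| < 31 / 20 := abs_lt.2 hmem
      rw [hρ, kerf_near P hk f hf n ρ hab]
      by_cases h0 : Xl k (Pt P.del n) (ln P f n) ρ = 0
      · rw [h0]; simp
      · have h1 := hL.2.2.1 ρ h0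
        rw [gf_near P n ρ h1.1 h1.2, ofReal_re]
        ring
    rw [hstep, integral_const_mul]
    have hfull : ∫ ρ in Ioo (-(31 / 20) : ℝ) (31 / 20), (2 * Real.sin (ρ + dl P.del n))⁻¹ *
          ‖Xl k (Pt P.del n) (ln P f n) ρ‖ ^ 2 =
        ∫ ρ, (2 * Real.sin (ρ + dl P.del n))⁻¹ * ‖Xl k (Pt P.del n) (ln P f n) ρ‖ ^ 2 := by
      refine setIntegral_eq_integral_of_forall_compl_eq_zero fun ρ hρ => ?_
      have : Xl k (Pt P.del n) (ln P f n) ρ = 0 := by
        by_contra h0
        exact hρ (abs_lt.1 (hL.2.2.1 ρ h0).2)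
      rw [this]; simp
    rw [hfull, Tl]
    ring
  have hfun : (fun n => sg n * Tl k (Pt P.del n) (dl P.del n) (ln P f n)) =
      fun n => ∫ x in s n, (gf P x).re * ‖h x‖ ^ 2 := by
    funext n
    exact cell_eq n
  rw [hfun]
  exact hsum

end Pool.Agent.Helper34.HRV
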