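import Pool.Agent.Helper34.HRV.Defs
import Pool.Agent.Helper92.HRU.BDefs
import Pool.Agent.Helper34.HRV.St.S1
import Pool.Agent.Helper92.HRU.Pf.PE1
import Pool.Agent.Helper92.HRU.Pf.PE2
import Pool.Agent.Helper92.HRU.Pf.PN1
import Pool.Agent.Helper92.HRU.Pf.PN2

/-! HRV bridge piece W6 (project HRT, MP_2370de_an; hints: `/team-store/HRV_hints2.md`). -/

set_option autoImplicit false

namespace Pool.Agent.Helper34.HRV

open MeasureTheory Complex Set
open scoped ComplexConjugate Real ENNReal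
open Pool.Agent.Helper92.HRU (Par L2 AdmX X0 AA TT Q Qc Qp Qm ln al kerf kap ee eb cf sf ze Lam Wc En Iy Qs IsTrial)

/-- Cauchy-Schwarz on the line -/
private theorem w6_cs {f g : ℝ → ℝ} (hf : Integrable fun y => f y ^ 2)
    (hg : Integrable fun y => g y ^ 2) (hfm : AEStronglyMeasurable f volume)
    (hgm : AEStronglyMeasurable g volume) :
    (∫ y, f y * g y) ^ 2 ≤ (∫ y, f y ^ 2) * ∫ y, g y ^ 2 := by
  have hfg : Integrable fun y => f y * g y := by
    refine (hf.add hg).mono' (hfm.mul hgm) (ae_of_all _ fun y => ?_)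
    rw [Real.norm_eq_abs, Pi.add_apply, abs_mul, ← sq_abs (f y), ← sq_abs (g y)]
    nlinarith [sq_nonneg (|f y| - |g y|), sq_nonneg (|f y| + |g y|)]
  have key : ∀ t : ℝ, 0 ≤ (∫ y, g y ^ 2) * (t * t) + (-(2 * ∫ y, f y * g y)) * t +
      ∫ y, f y ^ 2 := by
    intro t
    have h1 : ∫ y, (f y - t * g y) ^ 2 =
        (∫ y, g y ^ 2) * (t * t) + (-(2 * ∫ y, f y * g y)) * t + ∫ y, f y ^ 2 := by
      have e1 : (fun y => (f y - t * g y) ^ 2) =
          fun y => (f y ^ 2 - 2 * t * (f y * g y)) + t * t * g y ^ 2 := by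
        funext y
        ring
      have hA : Integrable fun y => f y ^ 2 - 2 * t * (f y * g y) := hf.sub (hfg.const_mul _)
      have hB : Integrable fun y => t * t * g y ^ 2 := hg.const_mul _
      rw [e1, integral_add hA hB,
        integral_sub hf (hfg.const_mul _), integral_const_mul, integral_const_mul]
      ring
    rw [← h1]
    exact integral_nonneg fun y => sq_nonneg _
  have h2 := discrim_le_zero key
  unfold discrim at h2
  nlinarith

private theorem w6_iy_lt : volume Iy ≠ ⊤ := by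
  unfold Iy
  rw [Real.volume_Ioo]
  exact ENNReal.ofReal_ne_top

private theorem w6_iy_meas : MeasurableSet Iy := measurableSet_Ioo

private theorem w6_e_pos (P : Par) (y : ℝ) : 0 < ee P y :=
  P.g_pos.trans_le (Pool.Agent.Helper92.HRU.ee_ge P y)

private theorem w6_int (P : Par) {w : ℝ → ℝ} (hw : Measurable w) (hb : ∀ y ∈ Iy, |w y| ≤ 2) :
    IntegrableOn (fun y => w y ^ 2 * (ee P y)⁻¹) Iy := by
  refine Measure.integrableOn_of_bounded (M := 4 * P.g⁻¹) w6_iy_lt ?_ ?_
  · have h1 : Measurable fun y => w y ^ 2 * (ee P y)⁻¹ :=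
      (hw.pow_const 2).mul (Pool.Agent.Helper92.HRU.ee_cont P).measurable.inv
    exact h1.aestronglyMeasurable
  · rw [ae_restrict_iff' w6_iy_meas]
    refine ae_of_all _ fun y hy => ?_
    have h1 := w6_e_pos P y
    have h2 := Pool.Agent.Helper92.HRU.ee_ge P y
    rw [Real.norm_eq_abs, abs_mul, abs_of_nonneg (sq_nonneg (w y)),
      abs_of_pos (inv_pos.mpr h1)]
    have h3 : w y ^ 2 ≤ 4 := by
      rw [← sq_abs]
      have := hb y hy
      nlinarith [abs_nonneg (w y)]
    exact mul_le_mul h3 (inv_anti₀ P.g_pos h2) (inv_pos.mpr h1).le (by norm_num)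

private theorem w6_main (P : Par) {ζ : ℤ → ℂ} {a : ℤ → ℝ → ℂ} (ha : Fib (cf P) ζ a)
    (hi : Integrable (fun y => ee P y * An a y ^ 2)) {w : ℝ → ℝ} (hw : Measurable w)
    (hb : ∀ y ∈ Iy, |w y| ≤ 2) :
    (∫ y, w y * An a y) ^ 2 ≤ (∫ y in Iy, w y ^ 2 * (ee P y)⁻¹) *
      ∫ y, ee P y * An a y ^ 2 := by
  obtain ⟨hAm, _, hAs, _⟩ := fib_facts ha
  have hem : Measurable (ee P) := (Pool.Agent.Helper92.HRU.ee_cont P).measurable
  set f : ℝ → ℝ := Iy.indicator fun y => w y / Real.sqrt (ee P y) with hf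
  set g : ℝ → ℝ := fun y => Real.sqrt (ee P y) * An a y with hg
  have hf2 : (fun y => f y ^ 2) = Iy.indicator fun y => w y ^ 2 * (ee P y)⁻¹ := by
    funext y
    by_cases hy : y ∈ Iy
    · rw [hf, indicator_of_mem hy, indicator_of_mem hy, div_pow,
        Real.sq_sqrt (w6_e_pos P y).le, div_eq_mul_inv]
    · rw [hf, indicator_of_notMem hy, indicator_of_notMem hy]
      norm_num
  have hg2 : (fun y => g y ^ 2) = fun y => ee P y * An a y ^ 2 := by
    funext y
    rw [hg]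
    change (Real.sqrt (ee P y) * An a y) ^ 2 = _
    rw [mul_pow, Real.sq_sqrt (w6_e_pos P y).le]
  have hfg : (fun y => f y * g y) = fun y => w y * An a y := by
    funext y
    by_cases hy : y ∈ Iy
    · have h1 : Real.sqrt (ee P y) ≠ 0 := (Real.sqrt_pos.mpr (w6_e_pos P y)).ne'
      rw [hf, indicator_of_mem hy, hg]
      change w y / Real.sqrt (ee P y) * (Real.sqrt (ee P y) * An a y) = _
      field_simp
    · have h0 : An a y = 0 := by
        by_contra h
        have h1 := hAs y h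
        exact hy (abs_lt.mp h1)
      rw [hg, h0]
      simp [h0]
  have hfm : Measurable f := (hw.div hem.sqrt).indicator w6_iy_meas
  have hgm : Measurable g := hem.sqrt.mul hAm
  have hfi : Integrable fun y => f y ^ 2 := by
    rw [hf2]
    exact (integrable_indicator_iff w6_iy_meas).2 (w6_int P hw hb)
  have hgi : Integrable fun y => g y ^ 2 := by
    rw [hg2]
    exact hi
  have key := w6_cs hfi hgi hfm.aestronglyMeasurable hgm.aestronglyMeasurable
  rw [hfg, hf2, hg2, integral_indicator w6_iy_meas] at key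
  exact key

/-- the weight `c` is small near the line -/
private theorem w6_cf (P : Par) (y : ℝ) (hy : |y| ≤ P.s ^ 2 / P.L) :
    |cf P y| ≤ P.L⁻¹ := by
  have hs := P.s_pos
  have hs2 : 0 < P.s ^ 2 := by positivity
  have hTh := P.Th_bd.1
  have hL : 0 < P.L := lt_of_lt_of_le (by norm_num) P.hL
  have h0 : 0 < P.s ^ 2 * P.Th := mul_pos hs2 (by linarith)
  have hrho : P.s ^ 2 * P.Th ≤ Pool.Agent.Helper92.HRU.rho P y := by
    unfold Pool.Agent.Helper92.HRU.rho
    apply Real.le_sqrt_of_sq_le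
    nlinarith [sq_nonneg (Real.sin y)]
  have hrp : 0 < Pool.Agent.Helper92.HRU.rho P y := h0.trans_le hrho
  unfold cf
  rw [abs_div, abs_of_pos hrp, abs_mul, abs_of_pos (by norm_num : (0 : ℝ) < 2),
    div_le_iff₀ hrp]
  have h1 : |Real.sin y| ≤ |y| := Real.abs_sin_le_abs
  have h2 : 2 * |Real.sin y| ≤ 2 * (P.s ^ 2 / P.L) := by linarith
  have h3 : 2 * (P.s ^ 2 / P.L) ≤ P.L⁻¹ * (P.s ^ 2 * P.Th) := by
    rw [div_eq_mul_inv]
    have h4 : 0 < P.s ^ 2 * P.L⁻¹ := by positivity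
    nlinarith
  exact h2.trans (h3.trans (mul_le_mul_of_nonneg_left hrho (inv_pos.mpr hL).le))

/-- W6. Cauchy-Schwarz on the positive band. -/
theorem cs_band : ∃ C : ℝ, 0 < C ∧ ∀ (P : Par) (ζ : ℤ → ℂ) (a : ℤ → ℝ → ℂ), Fib (cf P) ζ a →
    Integrable (fun y => ee P y * An a y ^ 2) →
    a1 a ^ 2 ≤ Lam P * ∫ y, ee P y * An a y ^ 2 ∧
    (∫ y, (|cf P y| + |y|) * An a y) ^ 2 ≤ C * P.L * ∫ y, ee P y * An a y ^ 2 := by
  obtain ⟨C1, hC1, h1⟩ := Pool.Agent.Helper92.HRU.y2_int
  obtain ⟨c2, C2, _, hC2, h2⟩ := Pool.Agent.Helper92.HRU.Lam_bounds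
  obtain ⟨C3, hC3, h3⟩ := Pool.Agent.Helper92.HRU.Lam_tail
  refine ⟨2 * C1 + 2 * C2 + 2 * C3, by positivity, ?_⟩
  intro P ζ a ha hi
  have hEn : 0 ≤ ∫ y, ee P y * An a y ^ 2 :=
    integral_nonneg fun y => mul_nonneg (w6_e_pos P y).le (sq_nonneg _)
  have hL : 0 < P.L := lt_of_lt_of_le (by norm_num) P.hL
  have hL1 : 1 ≤ P.L := le_trans (by norm_num) P.hL
  have hem : Measurable (ee P) := (Pool.Agent.Helper92.HRU.ee_cont P).measurable
  constructor
  · have h4 := w6_main P ha hi (w := fun _ => 1) measurable_const (fun y _ => by norm_num)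
    have e1 : (fun y => (1 : ℝ) * An a y) = An a := by
      funext y
      rw [one_mul]
    have e2 : (∫ y in Iy, (1 : ℝ) ^ 2 * (ee P y)⁻¹) = Lam P := by
      unfold Lam
      refine integral_congr_ae (ae_of_all _ fun y => ?_)
      change (1 : ℝ) ^ 2 * (ee P y)⁻¹ = (ee P y)⁻¹
      rw [one_pow, one_mul]
    rw [e1, e2] at h4
    exact h4
  · have hw : Measurable fun y => |cf P y| + |y| := by
      have := ha.cf_meas
      fun_prop
    have hcf := ha.cf_le
    have hyb : ∀ y ∈ Iy, |y| < 1 / 20 := fun y hy => abs_lt.mpr hy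
    have hwb : ∀ y ∈ Iy, |(|cf P y| + |y|)| ≤ 2 := by
      intro y hy
      rw [abs_of_nonneg (by positivity)]
      have := hyb y hy
      have := hcf y
      linarith
    have h4 := w6_main P ha hi hw hwb
    refine h4.trans (mul_le_mul_of_nonneg_right ?_ hEn)
    -- the integral of the weight
    have hint := w6_int P hw hwb
    have hnn : ∀ y, 0 ≤ (|cf P y| + |y|) ^ 2 * (ee P y)⁻¹ := fun y =>
      mul_nonneg (sq_nonneg _) (inv_pos.mpr (w6_e_pos P y)).le
    rw [← ENNReal.ofReal_le_ofReal_iff (by positivity), ofReal_integral_eq_lintegral_ofReal hint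
      (ae_of_all _ hnn)]
    set T : Set ℝ := Icc (-(P.s ^ 2 / P.L)) (P.s ^ 2 / P.L) with hT
    have hTm : MeasurableSet T := measurableSet_Icc
    have hpt : ∀ y, ENNReal.ofReal ((|cf P y| + |y|) ^ 2 * (ee P y)⁻¹) ≤
        (ENNReal.ofReal 2 * ENNReal.ofReal (y ^ 2 * (ee P y)⁻¹) +
          ENNReal.ofReal (2 * (P.L⁻¹) ^ 2) * ENNReal.ofReal (ee P y)⁻¹) +
          Tᶜ.indicator (fun y => ENNReal.ofReal 2 * ENNReal.ofReal (ee P y)⁻¹) y := by
      intro y
      have hei : 0 < (ee P y)⁻¹ := inv_pos.mpr (w6_e_pos P y)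
      have hsq : (|cf P y| + |y|) ^ 2 ≤ 2 * y ^ 2 + 2 * |cf P y| ^ 2 := by
        nlinarith [sq_nonneg (|cf P y| - |y|), sq_abs y]
      rw [← ENNReal.ofReal_mul (by norm_num), ← ENNReal.ofReal_mul (by positivity),
        ← ENNReal.ofReal_add (by positivity) (by positivity)]
      by_cases hy : y ∈ T
      · rw [indicator_of_notMem (by simpa using hy), add_zero]
        refine ENNReal.ofReal_le_ofReal ?_
        have h5 := w6_cf P y (abs_le.mpr hy)
        have h6 : |cf P y| ^ 2 ≤ (P.L⁻¹) ^ 2 := pow_le_pow_left₀ (abs_nonneg _) h5 2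
        have h7 : (|cf P y| + |y|) ^ 2 ≤ 2 * y ^ 2 + 2 * (P.L⁻¹) ^ 2 := by linarith
        calc (|cf P y| + |y|) ^ 2 * (ee P y)⁻¹ ≤ (2 * y ^ 2 + 2 * (P.L⁻¹) ^ 2) * (ee P y)⁻¹ :=
              mul_le_mul_of_nonneg_right h7 hei.le
          _ = 2 * (y ^ 2 * (ee P y)⁻¹) + 2 * (P.L⁻¹) ^ 2 * (ee P y)⁻¹ := by ring
      · rw [indicator_of_mem (by simpa using hy), ← ENNReal.ofReal_mul (by norm_num),
          ← ENNReal.ofReal_add (by positivity) (by positivity)]
        refine ENNReal.ofReal_le_ofReal ?_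
        have h6 : |cf P y| ^ 2 ≤ 1 := by
          have := hcf y
          have := abs_nonneg (cf P y)
          nlinarith
        have h7 : (|cf P y| + |y|) ^ 2 ≤ 2 * y ^ 2 + 2 := by linarith
        have h8 : 0 ≤ 2 * (P.L⁻¹) ^ 2 * (ee P y)⁻¹ := by positivity
        calc (|cf P y| + |y|) ^ 2 * (ee P y)⁻¹ ≤ (2 * y ^ 2 + 2) * (ee P y)⁻¹ :=
              mul_le_mul_of_nonneg_right h7 hei.le
          _ ≤ 2 * (y ^ 2 * (ee P y)⁻¹) + 2 * (P.L⁻¹) ^ 2 * (ee P y)⁻¹ + 2 * (ee P y)⁻¹ := by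
              nlinarith
    have hm1 : Measurable fun y => ENNReal.ofReal (y ^ 2 * (ee P y)⁻¹) :=
      ((measurable_id.pow_const 2).mul hem.inv).ennreal_ofReal
    have hm2 : Measurable fun y => ENNReal.ofReal (ee P y)⁻¹ := hem.inv.ennreal_ofReal
    calc ∫⁻ y in Iy, ENNReal.ofReal ((|cf P y| + |y|) ^ 2 * (ee P y)⁻¹)
        ≤ ∫⁻ y in Iy, ((ENNReal.ofReal 2 * ENNReal.ofReal (y ^ 2 * (ee P y)⁻¹) +
          ENNReal.ofReal (2 * (P.L⁻¹) ^ 2) * ENNReal.ofReal (ee P y)⁻¹) +
          Tᶜ.indicator (fun y => ENNReal.ofReal 2 * ENNReal.ofReal (ee P y)⁻¹) y) :=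
          lintegral_mono hpt
      _ = ENNReal.ofReal 2 * (∫⁻ y in Iy, ENNReal.ofReal (y ^ 2 * (ee P y)⁻¹)) +
          ENNReal.ofReal (2 * (P.L⁻¹) ^ 2) * (∫⁻ y in Iy, ENNReal.ofReal (ee P y)⁻¹) +
          ENNReal.ofReal 2 * (∫⁻ y in Iy \ T, ENNReal.ofReal (ee P y)⁻¹) := by
          have hm12 : Measurable fun y => ENNReal.ofReal 2 * ENNReal.ofReal (y ^ 2 * (ee P y)⁻¹) +
              ENNReal.ofReal (2 * (P.L⁻¹) ^ 2) * ENNReal.ofReal (ee P y)⁻¹ :=
            (hm1.const_mul _).add (hm2.const_mul _)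
          rw [lintegral_add_left hm12,
            lintegral_add_left (hm1.const_mul _), lintegral_const_mul _ hm1,
            lintegral_const_mul _ hm2, lintegral_indicator hTm.compl,
            lintegral_const_mul _ hm2, Measure.restrict_restrict hTm.compl]
          congr 3
          rw [inter_comm]
          rfl
      _ ≤ ENNReal.ofReal 2 * ENNReal.ofReal C1 +
          ENNReal.ofReal (2 * (P.L⁻¹) ^ 2) * ENNReal.ofReal (C2 * P.L ^ 2) +
          ENNReal.ofReal 2 * ENNReal.ofReal (C3 * P.L) := by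
          refine add_le_add (add_le_add (mul_le_mul_right (h1 P) _)
            (mul_le_mul_right ?_ _)) (mul_le_mul_right (h3 P) _)
          rw [Pool.Agent.Helper92.HRU.Lam_lint]
          exact ENNReal.ofReal_le_ofReal (h2 P).2
      _ = ENNReal.ofReal (2 * C1 + 2 * (P.L⁻¹) ^ 2 * (C2 * P.L ^ 2) + 2 * (C3 * P.L)) := by
          rw [← ENNReal.ofReal_mul (by norm_num), ← ENNReal.ofReal_mul (by positivity),
            ← ENNReal.ofReal_mul (by norm_num), ← ENNReal.ofReal_add (by positivity)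
            (by positivity), ← ENNReal.ofReal_add (by positivity) (by positivity)]
      _ ≤ ENNReal.ofReal ((2 * C1 + 2 * C2 + 2 * C3) * P.L) := by
          refine ENNReal.ofReal_le_ofReal ?_
          have e3 : 2 * (P.L⁻¹) ^ 2 * (C2 * P.L ^ 2) = 2 * C2 := by
            have : P.L ≠ 0 := hL.ne'
            field_simp
          rw [e3]
          nlinarith

end Pool.Agent.Helper34.HRV
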