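import Pool.Agent.Helper34.HRV.Defs
import Pool.Agent.Helper92.HRU.BDefs

/-! HRV bridge piece W7 (project HRT, MP_2370de_an; hints: `/team-store/HRV_hints2.md`). Replace the `sorry`s in place. -/

set_option autoImplicit false

namespace Pool.Agent.Helper34.HRV

open MeasureTheory Complex Set
open scoped ComplexConjugate Real ENNReal
open Pool.Agent.Helper92.HRU (Par L2 AdmX X0 AA TT Q Qc Qp Qm ln al kerf kap ee eb cf sf ze Lam Wc En Iy Qs IsTrial)

/-- W7. The constants agree. -/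
theorem W0_eq : W0 = 8 * π ^ 2 * Wc := by
  have hc : ∀ u, Pool.Agent.Helper92.HRU.cc u = cc u := fun _ => rfl
  have hD : Dm 0 0 = Ioo (1 / 2 : ℝ) (3 / 2) := by
    unfold Dm
    simp
  have hw : ∀ ρ : ℝ, wy 0 0 ρ = Real.sin (ρ * cc ρ) / Real.sin ρ * Real.sin (π * cc ρ) := by
    intro ρ
    unfold wy wt th
    rw [sub_zero]
    congr 2
    ring
  unfold W0 Wy Wc
  rw [hD]
  simp only [hw, hc]
  have hπ : (8 * π ^ 2 : ℝ) ≠ 0 := by positivity
  rw [mul_inv_cancel_left₀ hπ]

end Pool.Agent.Helper34.HRV
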