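import Pool.Agent.Helper34.HRV.Defs
import Pool.Agent.Helper92.HRU.BDefs
import Pool.Agent.Helper34.HRV.Wt.W1
import Pool.Agent.Helper34.HRV.Wt.W2
import Pool.Agent.Helper34.HRV.Wt.W6
import Pool.Agent.Helper34.HRV.Wt.W7
import Pool.Agent.Helper34.HRV.St.O3
import Pool.Agent.Helper34.HRV.St.S5
import Pool.Agent.Helper92.HRU.Pf.PJ1
import Pool.Agent.Helper92.HRU.Pf.PE1
import Pool.Agent.Helper92.HRU.Pf.PE2
import Pool.Agent.Helper92.HRU.Pf.PK2

/-! HRV bridge piece W10 (project HRT, MP_2370de_an; hints: `/team-store/HRV_hints2.md`). Replace the `sorry`s in place. -/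

set_option autoImplicit false

namespace Pool.Agent.Helper34.HRV

open MeasureTheory Complex Set
open scoped ComplexConjugate Real ENNReal
open Pool.Agent.Helper92.HRU (Par L2 AdmX X0 AA TT Q Qc Qp Qm ln al kerf kap ee eb cf sf ze Lam Wc En Iy Qs IsTrial)

private theorem w10_cf (P : Par) : Measurable (cf P) := by
  have h : Continuous (Pool.Agent.Helper92.HRU.rho P) := by
    unfold Pool.Agent.Helper92.HRU.rho
    fun_prop
  unfold Pool.Agent.Helper92.HRU.cf
  exact (by fun_prop : Measurable fun y : ℝ => 2 * Real.sin y).div h.measurable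

private theorem w10_cf_le (P : Par) (y : ℝ) : |cf P y| ≤ 1 := by
  have h := Pool.Agent.Helper92.HRU.cf_sq_add_sf_sq P y
  rw [abs_le_one_iff_mul_self_le_one]
  nlinarith [sq_nonneg (sf P y)]

private theorem w10_g (P : Par) : 0 < P.g := by
  have := P.hL
  unfold Pool.Agent.Helper92.HRU.Par.g Pool.Agent.Helper92.HRU.Par.s
    Pool.Agent.Helper92.HRU.Par.gh
  positivity

private theorem w10_ee (P : Par) (y : ℝ) : 0 < ee P y :=
  (w10_g P).trans_le (Pool.Agent.Helper92.HRU.ee_ge P y)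

/-- the amplitude of the trial function -/
private noncomputable def w10a (P : Par) : ℝ → ℝ := Iy.indicator fun y => (ee P y)⁻¹

private theorem w10_Iy : MeasurableSet Iy := by
  unfold Pool.Agent.Helper92.HRU.Iy
  exact measurableSet_Ioo

private theorem w10a_nn (P : Par) (y : ℝ) : 0 ≤ w10a P y :=
  Set.indicator_nonneg (fun y _ => inv_nonneg.2 (w10_ee P y).le) y

private theorem w10a_meas (P : Par) : Measurable (w10a P) :=
  (Pool.Agent.Helper92.HRU.ee_cont P).measurable.inv.indicator w10_Iy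

private theorem w10a_supp (P : Par) (y : ℝ) (h : w10a P y ≠ 0) : |y| < 1 / 20 := by
  by_contra hc
  apply h
  refine Set.indicator_of_notMem ?_ _
  rintro ⟨h1, h2⟩
  exact hc (abs_lt.2 ⟨h1, h2⟩)

/-- the family of the trial function -/
private noncomputable def w10f (P : Par) : ℤ → ℝ → ℂ :=
  fun j y => if j = 0 then ((w10a P y : ℝ) : ℂ) else 0

private theorem w10_term (P : Par) (y : ℝ) (k : ℤ) (hk : k ≠ 0) : ‖w10f P k y‖ ^ 2 = 0 := by
  simp [w10f, hk]

private theorem w10_hasSum (P : Par) (y : ℝ) : HasSum (fun k => ‖w10f P k y‖ ^ 2) (w10a P y ^ 2) := by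
  have h := hasSum_single (f := fun k => ‖w10f P k y‖ ^ 2) 0 (fun k hk => w10_term P y k hk)
  have h0 : ‖w10f P 0 y‖ ^ 2 = w10a P y ^ 2 := by
    simp [w10f]
  simpa only [h0] using h

private theorem w10_ind (c : ℝ) : Integrable (Iy.indicator fun _ : ℝ => c) := by
  rw [integrable_indicator_iff w10_Iy]
  unfold Pool.Agent.Helper92.HRU.Iy
  exact integrableOn_const (by simp)

private theorem w10a_le (P : Par) (y : ℝ) : w10a P y ≤ Iy.indicator (fun _ => (P.g)⁻¹) y := by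
  unfold w10a
  refine Set.indicator_le_indicator ?_
  exact inv_anti₀ (w10_g P) (Pool.Agent.Helper92.HRU.ee_ge P y)

private theorem w10a_int (P : Par) : Integrable (w10a P) := by
  refine (w10_ind (P.g)⁻¹).mono' (w10a_meas P).aestronglyMeasurable (ae_of_all _ fun y => ?_)
  rw [Real.norm_eq_abs, abs_of_nonneg (w10a_nn P y)]
  exact w10a_le P y

private theorem w10a_sq (P : Par) : Integrable fun y => w10a P y ^ 2 := by
  refine ((w10a_int P).const_mul (P.g)⁻¹).mono' ((w10a_meas P).pow_const 2).aestronglyMeasurable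
    (ae_of_all _ fun y => ?_)
  rw [Real.norm_eq_abs, abs_of_nonneg (by positivity), sq]
  refine mul_le_mul_of_nonneg_right ?_ (w10a_nn P y)
  refine (w10a_le P y).trans ?_
  by_cases h : y ∈ Iy
  · rw [Set.indicator_of_mem h]
  · rw [Set.indicator_of_notMem h]
    exact inv_nonneg.2 (w10_g P).le

private theorem w10_fib (P : Par) : Fib (cf P) (ze P 1) (w10f P) where
  cf_meas := w10_cf P
  cf_le := w10_cf_le P
  ζ_one k := Pool.Agent.Helper92.HRU.norm_ze P 1 norm_one k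
  a_meas k := by
    unfold w10f
    by_cases h : k = 0
    · simp only [h, if_true]
      exact Complex.measurable_ofReal.comp (w10a_meas P)
    · simp only [h, if_false]
      exact measurable_const
  a_supp k y h := by
    by_cases hk : k = 0
    · refine w10a_supp P y fun h0 => h ?_
      simp [w10f, hk, h0]
    · exact absurd (by simp [w10f, hk]) h
  a_sum y := (w10_hasSum P y).summable
  a_int := by
    simp only [(w10_hasSum P _).tsum_eq]
    exact w10a_sq P

private theorem w10_An (P : Par) (y : ℝ) : An (w10f P) y = w10a P y := by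
  rw [An, (w10_hasSum P y).tsum_eq, Real.sqrt_sq (w10a_nn P y)]

private theorem w10_lines (P : Par) (f : L2) (hf : IsTrial P f) (n : ℤ) :
    ln P f n =ᵐ[volume] fl (cf P) (ze P 1) (w10f P) n := by
  filter_upwards [hf.2] with y hy
  by_cases h : y ∈ Iy
  · obtain ⟨h1, h2, h3⟩ := hy h
    have ha : w10a P y = (ee P y)⁻¹ := Set.indicator_of_mem h _
    by_cases n0 : n = 0
    · subst n0
      rw [h2, fl, if_pos (by decide)]
      have : (0 : ℤ) / 2 = 0 := by norm_num
      rw [this, w10f, if_pos rfl, ha]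
      push_cast
      rw [div_eq_mul_inv, mul_assoc]
    by_cases n1 : n = -1
    · subst n1
      rw [h1, fl, if_neg (by decide)]
      have : ((-1 : ℤ) + 1) / 2 = 0 := by norm_num
      rw [this, w10f, if_pos rfl, ha]
      push_cast
      rw [div_eq_mul_inv]
    · rw [h3 n n1 n0, fl]
      split_ifs with he
      · obtain ⟨c, hc⟩ := he
        have : n / 2 ≠ 0 := by omega
        rw [w10f, if_neg this, mul_zero]
      · rw [Int.not_even_iff_odd] at he
        obtain ⟨c, hc⟩ := he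
        have : (n + 1) / 2 ≠ 0 := by omega
        rw [w10f, if_neg this, mul_zero]
  · have ha : w10a P y = 0 := Set.indicator_of_notMem h _
    have h1 : ∀ k, w10f P k y = 0 := by
      intro k
      simp [w10f, ha]
    have h2 : ln P f n y = 0 := by
      unfold Pool.Agent.Helper92.HRU.ln
      exact Set.indicator_of_notMem h _
    rw [h2, fl]
    split_ifs
    · rw [h1, mul_zero]
    · rw [h1, mul_zero]

private theorem w10_Tl (k : ℝ → ℂ) (p δ : ℝ) {φ ψ : ℝ → ℂ} (h : φ =ᵐ[volume] ψ) :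
    Tl k p δ φ = Tl k p δ ψ := by
  have h1 : ∀ ρ, Xl k p φ ρ = Xl k p ψ ρ := by
    intro ρ
    unfold Xl
    refine integral_congr_ae ?_
    filter_upwards [h] with y hy
    rw [hy]
  unfold Tl
  simp only [h1]

private theorem w10_Lam (P : Par) : ∫ y, w10a P y = Lam P := by
  unfold w10a Pool.Agent.Helper92.HRU.Lam
  rw [integral_indicator w10_Iy]
  rfl

private theorem w10_E (P : Par) : ∫ y, ee P y * An (w10f P) y ^ 2 = Lam P := by
  rw [← w10_Lam]
  congr 1
  funext y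
  rw [w10_An]
  by_cases h : y ∈ Iy
  · have ha : w10a P y = (ee P y)⁻¹ := Set.indicator_of_mem h _
    rw [ha]
    have := (w10_ee P y).ne'
    field_simp
  · have ha : w10a P y = 0 := Set.indicator_of_notMem h _
    rw [ha]
    ring

private theorem w10_Ei (P : Par) : Integrable fun y => ee P y * An (w10f P) y ^ 2 := by
  refine (w10a_int P).congr (ae_of_all _ fun y => ?_)
  simp only [w10_An]
  by_cases h : y ∈ Iy
  · have ha : w10a P y = (ee P y)⁻¹ := Set.indicator_of_mem h _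
    rw [ha]
    have := (w10_ee P y).ne'
    field_simp
  · have ha : w10a P y = 0 := Set.indicator_of_notMem h _
    rw [ha]
    ring

private theorem w10_final {C C6 c L Λ B δ M W T r : ℝ} (hC : 0 < C) (hC6 : 0 < C6) (hc : 0 < c)
    (hL : 1 ≤ L) (hΛ : c * L ^ 2 ≤ Λ) (hB : B ^ 2 ≤ C6 * L * Λ) (hδ : |δ| ≤ (√L)⁻¹)
    (hM : M = r / (4 * π)) (hW : 0 < W)
    (hT : 2 * M ^ 2 * (8 * π ^ 2 * W) * Λ ^ 2 - C * M ^ 2 * Λ * B - C * M ^ 2 * |δ| * Λ ^ 2 ≤ T) :
    r ^ 2 * W * Λ ^ 2 * (1 - (C * (√(C6 / c) + 1) / W) * (√L)⁻¹) ≤ T := by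
  have hpi := Real.pi_gt_three
  have hLp : 0 < L := by linarith
  have hΛp : 0 < Λ := lt_of_lt_of_le (by positivity) hΛ
  have hs : 0 < √L := Real.sqrt_pos.2 hLp
  have hss : √L ^ 2 = L := Real.sq_sqrt hLp.le
  set D : ℝ := √(C6 / c) with hD
  have hD0 : 0 ≤ D := Real.sqrt_nonneg _
  have hD2 : D ^ 2 = C6 / c := Real.sq_sqrt (by positivity)
  have hB2 : B ≤ D * Λ * (√L)⁻¹ := by
    refine abs_le_of_sq_le_sq' ?_ (by positivity) |>.2
    rw [mul_pow, mul_pow, inv_pow, hss, hD2]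
    refine hB.trans ?_
    rw [← div_eq_mul_inv, le_div_iff₀ hLp]
    have h1 : C6 * L * Λ * L = C6 / c * (c * L ^ 2) * Λ := by
      field_simp
    rw [h1, sq Λ, ← mul_assoc (C6 / c) Λ Λ]
    exact mul_le_mul_of_nonneg_right (mul_le_mul_of_nonneg_left hΛ (by positivity)) hΛp.le
  have h1 : 2 * M ^ 2 * (8 * π ^ 2 * W) * Λ ^ 2 = r ^ 2 * W * Λ ^ 2 := by
    rw [hM]
    field_simp
    ring
  have hM2 : M ^ 2 ≤ r ^ 2 := by
    rw [hM, div_pow]
    refine div_le_self (by positivity) ?_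
    nlinarith
  have h2 : C * M ^ 2 * Λ * B ≤ C * r ^ 2 * Λ * (D * Λ * (√L)⁻¹) := by
    have a1 : C * M ^ 2 * Λ * B ≤ C * M ^ 2 * Λ * (D * Λ * (√L)⁻¹) :=
      mul_le_mul_of_nonneg_left hB2 (by positivity)
    have a2 : C * M ^ 2 * Λ * (D * Λ * (√L)⁻¹) ≤ C * r ^ 2 * Λ * (D * Λ * (√L)⁻¹) := by
      gcongr
    exact a1.trans a2
  have h3 : C * M ^ 2 * |δ| * Λ ^ 2 ≤ C * r ^ 2 * (√L)⁻¹ * Λ ^ 2 := by
    gcongr
  have h4 : r ^ 2 * W * Λ ^ 2 * (1 - (C * (D + 1) / W) * (√L)⁻¹) =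
      r ^ 2 * W * Λ ^ 2 - C * r ^ 2 * Λ * (D * Λ * (√L)⁻¹) - C * r ^ 2 * (√L)⁻¹ * Λ ^ 2 := by
    field_simp
    ring
  rw [h4]
  rw [h1] at hT
  linarith

/-- W10. B9 (3): `T` on the trial function for `ξ = r κ` (helper92's `trial_T`). -/
theorem trial_T (K : ℝ) (hK : 0 < K) : ∃ C : ℝ, 0 < C ∧ ∀ (P : Par) (r : ℝ) (f : L2), 0 ≤ r →
    r ≤ 1 → r ≤ K / P.L → IsTrial P f →
    r ^ 2 * Wc * Lam P ^ 2 * (1 - C * (√P.L)⁻¹)
      ≤ (TT P (fun t => ((r * kap P t : ℝ) : ℂ)) f f).re := by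
  obtain ⟨C, hC, hB9⟩ := B9low
  obtain ⟨C6, hC6, hcs⟩ := cs_band
  obtain ⟨c, Cu, hc, -, hLam⟩ := Pool.Agent.Helper92.HRU.Lam_bounds
  have hW : 0 < Wc := by
    have h1 := Wy_near.1
    rw [W0_eq] at h1
    have h2 : 0 < 8 * π ^ 2 := by positivity
    exact (pos_iff_pos_of_mul_pos h1).1 h2
  refine ⟨C * (√(C6 / c) + 1) / Wc, by positivity, fun P r f hr hr1 hrK htr => ?_⟩
  have hL := P.hL
  have hL1 : (1 : ℝ) ≤ P.L := by linarith
  have hδ : |P.del| ≤ (P.L ^ 40)⁻¹ := P.hdel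
  have hsq : √P.L ≤ P.L := by
    rw [Real.sqrt_le_left (by linarith)]
    nlinarith
  have hL40 : P.L ≤ P.L ^ 40 := le_self_pow₀ hL1 (by norm_num)
  have hδ1 : |P.del| ≤ (√P.L)⁻¹ :=
    hδ.trans (inv_anti₀ (Real.sqrt_pos.2 (by linarith)) (hsq.trans hL40))
  have hδ2 : |P.del| ≤ 1 / 100 := by
    refine hδ.trans ?_
    rw [one_div]
    exact inv_anti₀ (by norm_num) (hL.trans hL40)
  -- the kernel
  set M : ℝ := r / (4 * π) with hM
  have hM0 : 0 ≤ M := by
    have := Real.pi_pos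
    positivity
  have hk : ({u : ℝ | 1 / 2 < |u| ∧ |u| < 3 / 2}.indicator fun _ => ((r / (4 * π) : ℝ) : ℂ)) =
      kM M := by
    funext u
    unfold kM
    by_cases h : 1 / 2 < |u| ∧ |u| < 3 / 2
    · rw [if_pos h]
      exact Set.indicator_of_mem (show u ∈ {u : ℝ | 1 / 2 < |u| ∧ |u| < 3 / 2} from h) _
    · rw [if_neg h]
      exact Set.indicator_of_notMem (show u ∉ {u : ℝ | 1 / 2 < |u| ∧ |u| < 3 / 2} from h) _
  have hX := Pool.Agent.Helper92.HRU.trial_kernel P r hr f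
  rw [hk] at hX
  have hT := TT_lines P (fun t => ((r * kap P t : ℝ) : ℂ)) M (kM M) (kM_ker hM0) f htr.1 hX
  have hT2 : (TT P (fun t => ((r * kap P t : ℝ) : ℂ)) f f).re =
      ∑' n, sg n * Tl (kM M) (Pt P.del n) (dl P.del n) (fl (cf P) (ze P 1) (w10f P) n) := by
    rw [← hT.tsum_eq]
    refine tsum_congr fun n => ?_
    rw [w10_Tl _ _ _ (w10_lines P f htr n)]
  have hlow := hB9 M P.del (cf P) (ze P 1) (w10a P) hM0 hδ2 (w10a_nn P) (w10_fib P)
  change _ ≤ ∑' n, sg n * Tl (kM M) (Pt P.del n) (dl P.del n)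
    (fl (cf P) (ze P 1) (w10f P) n) at hlow
  rw [← hT2, w10_Lam, W0_eq] at hlow
  have hcs2 := (hcs P (ze P 1) (w10f P) (w10_fib P) (w10_Ei P)).2
  rw [w10_E] at hcs2
  simp only [w10_An] at hcs2
  exact w10_final hC hC6 hc hL1 (hLam P).1 hcs2 hδ1 hM hW hlow

end Pool.Agent.Helper34.HRV
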