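import Pool.Agent.Helper34.HRV.Defs
import Pool.Agent.Helper92.HRU.BDefs
import Pool.Agent.Helper92.HRU.Pf.PN1
import Pool.Agent.Helper92.HRU.Pf.PN2
import Pool.Agent.Helper92.HRU.Pf.PA1
import Pool.Agent.Helper92.HRU.Pf.PQ1
import Pool.Agent.Helper92.HRU.Pf.PQ2
import Pool.Agent.Helper92.HRU.Pf.PJ1
import Pool.Agent.Helper92.HRU.Pf.PJ2
import Pool.Agent.Helper92.HRU.Pf.PJ3

/-! HRV bridge piece W3 (project HRT, MP_2370de_an; hints: `/team-store/HRV_hints2.md`). Replace the `sorry`s in place. -/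

set_option autoImplicit false

namespace Pool.Agent.Helper34.HRV

open MeasureTheory Complex Set
open scoped ComplexConjugate Real ENNReal
open Pool.Agent.Helper92.HRU (Par L2 AdmX X0 AA TT Q Qc Qp Qm ln al kerf kap ee eb cf sf ze Lam Wc En Iy Qs IsTrial)
open Pool.Agent.Helper92.HRU (Jo Sw yMul j0 s1 s2 idx yo BddM BddY mulOp mulOp_coe rho)

private theorem w3_abs_cf (P : Par) (y : ℝ) : |cf P y| ≤ 1 := by
  have h := Pool.Agent.Helper92.HRU.cf_sq_add_sf_sq P y
  have h2 := sq_nonneg (sf P y)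
  exact abs_le_one_iff_mul_self_le_one.mpr (by nlinarith)

private theorem w3_abs_sf (P : Par) (y : ℝ) : |sf P y| ≤ 1 := by
  have h := Pool.Agent.Helper92.HRU.cf_sq_add_sf_sq P y
  have h2 := sq_nonneg (cf P y)
  exact abs_le_one_iff_mul_self_le_one.mpr (by nlinarith)

private theorem w3_meas_rho (P : Par) : Measurable (rho P) := by
  unfold Pool.Agent.Helper92.HRU.rho
  fun_prop

private theorem w3_meas_cf (P : Par) : Measurable (cf P) := by
  have h := w3_meas_rho P
  unfold Pool.Agent.Helper92.HRU.cf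
  fun_prop

private theorem w3_meas_sf (P : Par) : Measurable (sf P) := by
  have h := w3_meas_rho P
  unfold Pool.Agent.Helper92.HRU.sf
  fun_prop

private theorem w3_bddY_sf (P : Par) : BddY (sf P) :=
  ⟨w3_meas_sf P, 1, fun y _ => w3_abs_sf P y⟩

private theorem w3_meas_j0 (P : Par) : Measurable (j0 P) := by
  classical
  have h1 : Measurable fun x => ((cf P (yo P x) : ℝ) : ℂ) :=
    Complex.measurable_ofReal.comp ((w3_meas_cf P).comp (Pool.Agent.Helper92.HRU.yo_meas P))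
  have h2 : MeasurableSet {x : ℝ | Even (idx x)} :=
    Pool.Agent.Helper92.HRU.idx_meas (MeasurableSpace.measurableSet_top (s := {n : ℤ | Even n}))
  unfold Pool.Agent.Helper92.HRU.j0
  exact Measurable.ite (Pool.Agent.Helper92.HRU.meas_Qs P) (Measurable.ite h2 h1.neg h1)
    measurable_const

private theorem w3_norm_j0 (P : Par) (x : ℝ) : ‖j0 P x‖ ≤ 1 := by
  classical
  have h := w3_abs_cf P (yo P x)
  unfold Pool.Agent.Helper92.HRU.j0
  split_ifs
  · rw [norm_neg, Complex.norm_real]; exact h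
  · rw [Complex.norm_real]; exact h
  · simp

private theorem w3_bdd_j0 (P : Par) : BddM (j0 P) :=
  ⟨w3_meas_j0 P, 1, w3_norm_j0 P⟩

/-- on the lines: membership, number and offset -/
private theorem w3_near (P : Par) (n : ℤ) (y : ℝ) (hy : |y| < 1 / 20) :
    Pool.Agent.Helper92.HRU.Pt P n + y ∈ Qs P ∧ idx (Pool.Agent.Helper92.HRU.Pt P n + y) = n ∧
      yo P (Pool.Agent.Helper92.HRU.Pt P n + y) = y := by
  have hy1 : |y| ≤ 1 := by linarith
  have h1 := Pool.Agent.Helper92.HRU.idx_of_near P n y hy1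
  have h2 := Pool.Agent.Helper92.HRU.yo_of_near P n y hy1
  refine ⟨?_, h1, h2⟩
  rw [Pool.Agent.Helper92.HRU.mem_Qs, h2]
  exact hy

private theorem w3_jo (P : Par) (gb : ℂ) (hg : ‖gb‖ = 1) (f : L2) (hf : Qp P gb f = f) :
    ∀ᵐ x : ℝ, f x = j0 P x * f x + (Qs P).indicator (fun x => ((sf P (yo P x) : ℝ) : ℂ)) x *
      (s1 P gb x * f (x - P.sh) + s2 P gb x * f (x + P.sh)) := by
  have hQ : Q P f = f := by
    have := Pool.Agent.Helper92.HRU.Q_Qp P gb hg f
    rwa [hf] at this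
  have hJ : Jo P gb f = f := by
    have h1 : (1 / 2 : ℂ) • (Q P f + Jo P gb f) = f := by
      have : Qp P gb f = (1 / 2 : ℂ) • (Q P f + Jo P gb f) := rfl
      rw [← this, hf]
    rw [hQ] at h1
    have h2 : (2 : ℂ) • ((1 / 2 : ℂ) • (f + Jo P gb f)) = (2 : ℂ) • f := by rw [h1]
    rw [smul_smul, show (2 : ℂ) * (1 / 2) = 1 by norm_num, one_smul, two_smul] at h2
    exact add_left_cancel h2
  have h3 : Jo P gb f = mulOp (j0 P) f + yMul P (sf P) (Sw P gb f) := rfl
  have h4 := mulOp_coe (w3_bdd_j0 P) f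
  have h5 := Pool.Agent.Helper92.HRU.yMul_coe P (w3_bddY_sf P) (Sw P gb f)
  have h6 := Pool.Agent.Helper92.HRU.Sw_coe P gb hg f
  have h7 := Lp.coeFn_add (mulOp (j0 P) f) (yMul P (sf P) (Sw P gb f))
  rw [← h3, hJ] at h7
  filter_upwards [h4, h5, h6, h7] with x e4 e5 e6 e7
  rw [Pi.add_apply] at e7
  rw [e4, e5, e6] at e7
  exact e7

/-- W3. The positive band on the lines. -/
theorem Qp_lines (P : Par) (gb : ℂ) (hg : ‖gb‖ = 1) (f : L2) (hf : Qp P gb f = f) (k : ℤ) :
    ∀ᵐ y : ℝ, ln P f (2 * k - 1) y = (√((1 + cf P y) / 2) : ℂ) * al P gb f k y ∧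
      ln P f (2 * k) y = ze P gb k * (√((1 - cf P y) / 2) : ℂ) * al P gb f k y := by
  classical
  have h0 := w3_jo P gb hg f hf
  have h1 := Pool.Agent.Helper92.HRU.ae_comp_sub h0 (-Pool.Agent.Helper92.HRU.Pt P (2 * k))
  have h2 := Pool.Agent.Helper92.HRU.ae_comp_sub h0 (-Pool.Agent.Helper92.HRU.Pt P (2 * k - 1))
  filter_upwards [h1, h2] with y e1 e2
  by_cases hy : |y| < 1 / 20
  · have hmem : y ∈ Ioo (-(1 / 20) : ℝ) (1 / 20) := by
      rw [abs_lt] at hy
      exact ⟨hy.1, hy.2⟩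
    have hE : Even (2 * k) := even_two_mul k
    have hO : Odd (2 * k - 1) := (even_two_mul k).sub_odd odd_one
    have hO' : ¬ Even (2 * k - 1) := Int.not_even_iff_odd.2 hO
    have hE' : ¬ Odd (2 * k) := Int.not_odd_iff_even.2 hE
    have hsh : Pool.Agent.Helper92.HRU.Pt P (2 * k) - P.sh =
        Pool.Agent.Helper92.HRU.Pt P (2 * k - 1) := by
      unfold Pool.Agent.Helper92.HRU.Pt Pool.Agent.Helper92.HRU.Par.sh
      rw [if_pos hE, if_neg hO']
      push_cast
      ring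
    obtain ⟨a1, a2, a3⟩ := w3_near P (2 * k) y hy
    obtain ⟨b1, b2, b3⟩ := w3_near P (2 * k - 1) y hy
    have x1 : y - -Pool.Agent.Helper92.HRU.Pt P (2 * k) =
      Pool.Agent.Helper92.HRU.Pt P (2 * k) + y := by ring
    have x2 : y - -Pool.Agent.Helper92.HRU.Pt P (2 * k - 1) =
      Pool.Agent.Helper92.HRU.Pt P (2 * k - 1) + y := by ring
    rw [x1] at e1
    rw [x2] at e2
    have j1 : j0 P (Pool.Agent.Helper92.HRU.Pt P (2 * k) + y) = -((cf P y : ℝ) : ℂ) := by
      unfold Pool.Agent.Helper92.HRU.j0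
      rw [if_pos a1, a2, if_pos hE, a3]
    have j2 : j0 P (Pool.Agent.Helper92.HRU.Pt P (2 * k - 1) + y) = ((cf P y : ℝ) : ℂ) := by
      unfold Pool.Agent.Helper92.HRU.j0
      rw [if_pos b1, b2, if_neg hO', b3]
    have s11 : s1 P gb (Pool.Agent.Helper92.HRU.Pt P (2 * k) + y) = ze P gb k := by
      unfold Pool.Agent.Helper92.HRU.s1
      rw [if_pos ⟨a1, by rw [a2]; exact hE⟩, a2, Int.mul_ediv_cancel_left _ two_ne_zero]
    have s21 : s2 P gb (Pool.Agent.Helper92.HRU.Pt P (2 * k) + y) = 0 := by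
      unfold Pool.Agent.Helper92.HRU.s2
      rw [if_neg]
      rw [a2]
      exact fun h => hE' h.2
    have s12 : s1 P gb (Pool.Agent.Helper92.HRU.Pt P (2 * k - 1) + y) = 0 := by
      unfold Pool.Agent.Helper92.HRU.s1
      rw [if_neg]
      rw [b2]
      exact fun h => hO' h.2
    have s22 : s2 P gb (Pool.Agent.Helper92.HRU.Pt P (2 * k - 1) + y) = conj (ze P gb k) := by
      unfold Pool.Agent.Helper92.HRU.s2
      rw [if_pos ⟨b1, by rw [b2]; exact hO⟩, b2,
        show 2 * k - 1 + 1 = 2 * k by ring, Int.mul_ediv_cancel_left _ two_ne_zero]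
    have t1 : Pool.Agent.Helper92.HRU.Pt P (2 * k) + y - P.sh =
        Pool.Agent.Helper92.HRU.Pt P (2 * k - 1) + y := by rw [← hsh]; ring
    have t2 : Pool.Agent.Helper92.HRU.Pt P (2 * k - 1) + y + P.sh =
        Pool.Agent.Helper92.HRU.Pt P (2 * k) + y := by rw [← hsh]; ring
    rw [j1, indicator_of_mem a1, a3, s11, s21, t1, zero_mul, add_zero] at e1
    rw [j2, indicator_of_mem b1, b3, s12, s22, t2, zero_mul, zero_add] at e2
    have l1 : ln P f (2 * k) y = f (Pool.Agent.Helper92.HRU.Pt P (2 * k) + y) := by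
      unfold Pool.Agent.Helper92.HRU.ln
      rw [indicator_of_mem hmem]
    have l2 : ln P f (2 * k - 1) y = f (Pool.Agent.Helper92.HRU.Pt P (2 * k - 1) + y) := by
      unfold Pool.Agent.Helper92.HRU.ln
      rw [indicator_of_mem hmem]
    have hal : al P gb f k y = ((√((1 + cf P y) / 2) : ℝ) : ℂ) * ln P f (2 * k - 1) y
      + conj (ze P gb k) * ((√((1 - cf P y) / 2) : ℝ) : ℂ) * ln P f (2 * k) y := rfl
    rw [hal, l1, l2]
    generalize (f (Pool.Agent.Helper92.HRU.Pt P (2 * k) + y) : ℂ) = u at *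
    generalize (f (Pool.Agent.Helper92.HRU.Pt P (2 * k - 1) + y) : ℂ) = v at *
    have hc := w3_abs_cf P y
    rw [abs_le] at hc
    have hcs := Pool.Agent.Helper92.HRU.cf_sq_add_sf_sq P y
    have hsf : 0 ≤ sf P y := by
      unfold Pool.Agent.Helper92.HRU.sf
      refine div_nonneg ?_ (Pool.Agent.Helper92.HRU.rho_pos P y).le
      have := P.Th_bd.1
      have hT : 0 ≤ P.Th := by linarith
      positivity
    have hz : ze P gb k * conj (ze P gb k) = 1 := by
      rw [Complex.mul_conj, Complex.normSq_eq_norm_sq, Pool.Agent.Helper92.HRU.norm_ze P gb hg k]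
      norm_num
    set c := cf P y with hcdef
    set s := sf P y with hsdef
    have hA : (√((1 + c) / 2)) * (√((1 + c) / 2)) = (1 + c) / 2 :=
      Real.mul_self_sqrt (by linarith)
    have hB : (√((1 - c) / 2)) * (√((1 - c) / 2)) = (1 - c) / 2 :=
      Real.mul_self_sqrt (by linarith)
    have hAB : (√((1 + c) / 2)) * (√((1 - c) / 2)) = s / 2 := by
      rw [← Real.sqrt_mul (by linarith)]
      rw [show (1 + c) / 2 * ((1 - c) / 2) = (s / 2) ^ 2 by nlinarith]
      exact Real.sqrt_sq (by linarith)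
    have hA' : ((√((1 + c) / 2) : ℝ) : ℂ) * ((√((1 + c) / 2) : ℝ) : ℂ) = (1 + (c : ℂ)) / 2 := by
      rw [← Complex.ofReal_mul, hA]
      push_cast
      ring
    have hB' : ((√((1 - c) / 2) : ℝ) : ℂ) * ((√((1 - c) / 2) : ℝ) : ℂ) = (1 - (c : ℂ)) / 2 := by
      rw [← Complex.ofReal_mul, hB]
      push_cast
      ring
    have hAB' : ((√((1 + c) / 2) : ℝ) : ℂ) * ((√((1 - c) / 2) : ℝ) : ℂ) = (s : ℂ) / 2 := by
      rw [← Complex.ofReal_mul, hAB]
      push_cast
      ring
    generalize ((√((1 + c) / 2) : ℝ) : ℂ) = A at *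
    generalize ((√((1 - c) / 2) : ℝ) : ℂ) = B at *
    generalize ze P gb k = z at *
    constructor
    · linear_combination (-v) * hA' - (conj z * u) * hAB' + (1 / 2 : ℂ) * e2
    · linear_combination (-z * v) * hAB' - (z * conj z * u) * hB' - ((1 - (c : ℂ)) / 2 * u) * hz +
        (1 / 2 : ℂ) * e1
  · have hmem : y ∉ Ioo (-(1 / 20) : ℝ) (1 / 20) := by
      intro h
      exact hy (abs_lt.2 ⟨h.1, h.2⟩)
    have l0 : ∀ n, ln P f n y = 0 := by
      intro n
      unfold Pool.Agent.Helper92.HRU.ln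
      rw [indicator_of_notMem hmem]
    have hal : al P gb f k y = 0 := by
      unfold Pool.Agent.Helper92.HRU.al
      rw [l0, l0, mul_zero, mul_zero, add_zero]
    rw [l0, l0, hal, mul_zero, mul_zero]
    exact ⟨rfl, rfl⟩

end Pool.Agent.Helper34.HRV
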