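import Pool.Agent.Helper34.HRV.Defs
import Pool.Agent.Helper92.HRU.BDefs
import Pool.Agent.Helper34.HRV.Wt.W1
import Pool.Agent.Helper34.HRV.Wt.W3
import Pool.Agent.Helper92.HRU.Pf.PQ1
import Pool.Agent.Helper92.HRU.Pf.PJ1
import Pool.Agent.Helper92.HRU.Pf.PJ2
import Pool.Agent.Helper92.HRU.Pf.PJ3
import Pool.Agent.Helper92.HRU.Pf.PE1
import Pool.Agent.Helper92.HRU.Pf.PE4

/-! HRV bridge piece W4 (project HRT, MP_2370de_an; hints: `/team-store/HRV_hints2.md`). Replace the `sorry`s in place. -/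

set_option autoImplicit false

namespace Pool.Agent.Helper34.HRV

open MeasureTheory Complex Set
open scoped ComplexConjugate Real ENNReal
open Pool.Agent.Helper92.HRU (Par L2 AdmX X0 AA TT Q Qc Qp Qm ln al kerf kap ee eb cf sf ze Lam Wc En Iy Qs IsTrial)

private theorem w4_tsum (F : ℤ → ℝ≥0∞) : ∑' n, F n = ∑' k : ℤ, (F (2 * k - 1) + F (2 * k)) := by
  have i1 : Function.Injective (fun k : ℤ => 2 * k) := fun a b h => by
    have : 2 * a = 2 * b := h
    omega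
  have i2 : Function.Injective (fun k : ℤ => 2 * k - 1) := fun a b h => by
    have : 2 * a - 1 = 2 * b - 1 := h
    omega
  have h1 : HasSum (F ∘ fun k : ℤ => 2 * k) (∑' k : ℤ, F (2 * k)) := ENNReal.summable.hasSum
  have h2 : HasSum (F ∘ fun k : ℤ => 2 * k - 1) (∑' k : ℤ, F (2 * k - 1)) :=
    ENNReal.summable.hasSum
  have hc : IsCompl (Set.range fun k : ℤ => 2 * k) (Set.range fun k : ℤ => 2 * k - 1) := by
    rw [isCompl_iff, Set.disjoint_left, codisjoint_iff_le_sup]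
    constructor
    · rintro _ ⟨a, rfl⟩ ⟨b, hb⟩
      have : 2 * b - 1 = 2 * a := hb
      omega
    · intro n _
      rcases Int.even_or_odd n with ⟨c, hc⟩ | ⟨c, hc⟩
      · exact Or.inl ⟨c, show 2 * c = n by omega⟩
      · exact Or.inr ⟨c + 1, show 2 * (c + 1) - 1 = n by omega⟩
  have h3 := (i1.hasSum_range_iff.2 h1).add_isCompl hc (i2.hasSum_range_iff.2 h2)
  rw [h3.tsum_eq, ENNReal.tsum_add, add_comm]

private theorem w4_rho (P : Par) : Continuous (Pool.Agent.Helper92.HRU.rho P) := by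
  unfold Pool.Agent.Helper92.HRU.rho
  fun_prop

private theorem w4_cf (P : Par) : Measurable (cf P) := by
  unfold Pool.Agent.Helper92.HRU.cf
  exact (by fun_prop : Measurable fun y : ℝ => 2 * Real.sin y).div (w4_rho P).measurable

private theorem w4_cf_le (P : Par) (y : ℝ) : |cf P y| ≤ 1 := by
  have h := Pool.Agent.Helper92.HRU.cf_sq_add_sf_sq P y
  rw [abs_le_one_iff_mul_self_le_one]
  nlinarith [sq_nonneg (sf P y)]

private theorem w4_al_meas (P : Par) (gb : ℂ) (f : L2) (k : ℤ) : Measurable (al P gb f k) := by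
  have h1 := ln_meas P f (2 * k - 1)
  have h2 := ln_meas P f (2 * k)
  have h3 := w4_cf P
  unfold Pool.Agent.Helper92.HRU.al
  fun_prop

private theorem w4_al_supp (P : Par) (gb : ℂ) (f : L2) (k : ℤ) (y : ℝ) (h : al P gb f k y ≠ 0) :
    |y| < 1 / 20 := by
  by_contra hc
  apply h
  have h1 : ∀ n, ln P f n y = 0 := by
    intro n
    unfold Pool.Agent.Helper92.HRU.ln
    rw [Set.indicator_of_notMem]
    rintro ⟨h1, h2⟩
    exact hc (abs_lt.2 ⟨h1, h2⟩)
  unfold Pool.Agent.Helper92.HRU.al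
  rw [h1, h1]
  simp

private theorem w4_enorm (x : ℂ) : ‖x‖ₑ ^ 2 = ENNReal.ofReal (‖x‖ ^ 2) := by
  rw [ENNReal.ofReal_pow (norm_nonneg _), ofReal_norm]

private theorem w4_pair (P : Par) (gb : ℂ) (hg : ‖gb‖ = 1) (f : L2) (k : ℤ) (y : ℝ)
    (h : ln P f (2 * k - 1) y = (√((1 + cf P y) / 2) : ℂ) * al P gb f k y ∧
      ln P f (2 * k) y = ze P gb k * (√((1 - cf P y) / 2) : ℂ) * al P gb f k y) :
    ‖ln P f (2 * k - 1) y‖ₑ ^ 2 + ‖ln P f (2 * k) y‖ₑ ^ 2 = ‖al P gb f k y‖ₑ ^ 2 := by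
  have hc := abs_le.1 (w4_cf_le P y)
  rw [w4_enorm, w4_enorm, w4_enorm, ← ENNReal.ofReal_add (by positivity) (by positivity)]
  congr 1
  rw [h.1, h.2, norm_mul, norm_mul, norm_mul, Pool.Agent.Helper92.HRU.norm_ze P gb hg, mul_pow,
    mul_pow, Complex.norm_real, Complex.norm_real, Real.norm_eq_abs, Real.norm_eq_abs, one_mul,
    sq_abs, sq_abs, Real.sq_sqrt (by linarith), Real.sq_sqrt (by linarith)]
  ring

private theorem w4_weight (P : Par) (gb : ℂ) (hg : ‖gb‖ = 1) (f : L2) (hf : Qp P gb f = f)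
    (w : ℝ → ℝ≥0∞) (hw : Measurable w) (L : ℤ → ℝ → ℂ)
    (hL : ∀ n, ∀ᵐ y : ℝ, ‖L n y‖ₑ ^ 2 = w y * ‖ln P f n y‖ₑ ^ 2) :
    ∑' n : ℤ, ∫⁻ y, ‖L n y‖ₑ ^ 2 = ∫⁻ y, w y * ∑' k : ℤ, ‖al P gb f k y‖ₑ ^ 2 := by
  have h1 : ∀ n, ∫⁻ y, ‖L n y‖ₑ ^ 2 = ∫⁻ y, w y * ‖ln P f n y‖ₑ ^ 2 :=
    fun n => lintegral_congr_ae (hL n)
  simp_rw [h1, ← ENNReal.tsum_mul_left]
  have h2 : ∫⁻ y, ∑' k : ℤ, w y * ‖al P gb f k y‖ₑ ^ 2 =
      ∑' k : ℤ, ∫⁻ y, w y * ‖al P gb f k y‖ₑ ^ 2 :=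
    lintegral_tsum fun k => (hw.mul ((w4_al_meas P gb f k).enorm.pow_const 2)).aemeasurable
  rw [w4_tsum, h2]
  refine tsum_congr fun k => ?_
  have h3 : Measurable fun y => w y * ‖ln P f (2 * k - 1) y‖ₑ ^ 2 :=
    hw.mul ((ln_meas P f (2 * k - 1)).enorm.pow_const 2)
  rw [← lintegral_add_left h3]
  refine lintegral_congr_ae ?_
  filter_upwards [Qp_lines P gb hg f hf k] with y hy
  rw [← mul_add, w4_pair P gb hg f k y hy]

private theorem w4_Q (P : Par) (gb : ℂ) (hg : ‖gb‖ = 1) (f : L2) (hf : Qp P gb f = f) :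
    Q P f = f := by
  rw [← hf]
  exact Pool.Agent.Helper92.HRU.Q_Qp P gb hg f

private theorem w4_bddY (P : Par) : Pool.Agent.Helper92.HRU.BddY fun y => √(ee P y) := by
  refine ⟨(Pool.Agent.Helper92.HRU.ee_cont P).sqrt.measurable, 2, fun y _ => ?_⟩
  rw [abs_of_nonneg (Real.sqrt_nonneg _), Real.sqrt_le_left (by norm_num)]
  have h1 := Pool.Agent.Helper92.HRU.ee_le_eb P y
  have h2 := Pool.Agent.Helper92.HRU.eb_le P y
  linarith

private theorem w4_ee (P : Par) (y : ℝ) : 0 < ee P y := by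
  have h1 := Pool.Agent.Helper92.HRU.ee_ge P y
  have h2 : 0 < P.g := by
    have := P.hL
    unfold Pool.Agent.Helper92.HRU.Par.g Pool.Agent.Helper92.HRU.Par.s
      Pool.Agent.Helper92.HRU.Par.gh
    positivity
  linarith

private theorem w4_ln_yMul (P : Par) (f : L2) (n : ℤ) : ∀ᵐ y : ℝ,
    ‖ln P (Pool.Agent.Helper92.HRU.yMul P (fun y => √(ee P y)) f) n y‖ₑ ^ 2 =
      ENNReal.ofReal (ee P y) * ‖ln P f n y‖ₑ ^ 2 := by
  have h1 := Pool.Agent.Helper92.HRU.ae_comp_sub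
    (Pool.Agent.Helper92.HRU.yMul_coe P (w4_bddY P) f) (-(Pool.Agent.Helper92.HRU.Pt P n))
  filter_upwards [h1] with y hy
  rw [sub_neg_eq_add, add_comm y] at hy
  unfold Pool.Agent.Helper92.HRU.ln
  by_cases h : y ∈ Ioo (-(1 / 20) : ℝ) (1 / 20)
  · rw [Set.indicator_of_mem h, Set.indicator_of_mem h, hy]
    have h2 : |y| < 1 / 20 := abs_lt.2 ⟨h.1, h.2⟩
    have h3 : Pool.Agent.Helper92.HRU.yo P (Pool.Agent.Helper92.HRU.Pt P n + y) = y :=
      Pool.Agent.Helper92.HRU.yo_of_near P n y (by linarith)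
    have h4 : Pool.Agent.Helper92.HRU.Pt P n + y ∈ Qs P := by
      rw [Pool.Agent.Helper92.HRU.mem_Qs, h3]
      exact h2
    rw [Set.indicator_of_mem h4, h3, w4_enorm, w4_enorm, norm_mul, mul_pow, Complex.norm_real,
      Real.norm_eq_abs, sq_abs, Real.sq_sqrt (w4_ee P y).le, ENNReal.ofReal_mul (w4_ee P y).le]
  · rw [Set.indicator_of_notMem h, Set.indicator_of_notMem h]
    simp

/-- W4. The fibre family of a vector of the positive band. -/
theorem exists_fam (P : Par) (gb : ℂ) (hg : ‖gb‖ = 1) (f : L2) (hf : Qp P gb f = f) :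
    ∃ a : ℤ → ℝ → ℂ, Fib (cf P) (ze P gb) a ∧ (∀ᵐ y : ℝ, ∀ k, a k y = al P gb f k y) ∧
      (∀ n, ln P f n =ᵐ[volume] fl (cf P) (ze P gb) a n) ∧ (∫ y, An a y ^ 2) = ‖f‖ ^ 2 ∧
      Integrable (fun y => ee P y * An a y ^ 2) ∧ ∫ y, ee P y * An a y ^ 2 = En P gb f := by
  classical
  set T : ℝ → ℝ≥0∞ := fun y => ∑' k : ℤ, ‖al P gb f k y‖ₑ ^ 2 with hT
  have hTm : Measurable T :=
    Measurable.tsum fun k => (w4_al_meas P gb f k).enorm.pow_const 2
  have hint : ∫⁻ y, T y = ENNReal.ofReal (‖f‖ ^ 2) := by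
    rw [norm_lines P f (w4_Q P gb hg f hf)]
    have h := w4_weight P gb hg f hf (fun _ => 1) measurable_const (ln P f)
      (fun n => ae_of_all _ fun y => (one_mul _).symm)
    rw [h]
    simp [hT]
  have hintE : ∫⁻ y, ENNReal.ofReal (ee P y) * T y = ENNReal.ofReal (En P gb f) := by
    have h1 : En P gb f = ‖Pool.Agent.Helper92.HRU.yMul P (fun y => √(ee P y)) f‖ ^ 2 := by
      have h2 := Pool.Agent.Helper92.HRU.En_Qp P gb hg f
      rw [hf] at h2
      exact h2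
    rw [h1, norm_lines P _ (Pool.Agent.Helper92.HRU.yMul_Q P (w4_bddY P) f).2]
    rw [w4_weight P gb hg f hf (fun y => ENNReal.ofReal (ee P y))
      (Pool.Agent.Helper92.HRU.ee_cont P).measurable.ennreal_ofReal _ (w4_ln_yMul P f)]
  have hTfin : ∀ᵐ y : ℝ, T y ≠ ⊤ := by
    have h1 : ∫⁻ y, T y ≠ ⊤ := by rw [hint]; exact ENNReal.ofReal_ne_top
    filter_upwards [ae_lt_top hTm h1] with y hy
    exact hy.ne
  set S : Set ℝ := {y | T y ≠ ⊤} with hS
  have hSm : MeasurableSet S := (measurableSet_eq_fun hTm measurable_const).compl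
  set a : ℤ → ℝ → ℂ := fun k => S.indicator (al P gb f k) with ha
  have haeq : ∀ᵐ y : ℝ, ∀ k, a k y = al P gb f k y := by
    filter_upwards [hTfin] with y hy k
    exact Set.indicator_of_mem (show y ∈ S from hy) _
  have ham : ∀ k, Measurable (a k) := fun k => (w4_al_meas P gb f k).indicator hSm
  have hsupp : ∀ k y, a k y ≠ 0 → |y| < 1 / 20 := by
    intro k y h
    by_cases hy : y ∈ S
    · rw [ha] at h
      simp only [Set.indicator_of_mem hy] at h
      exact w4_al_supp P gb f k y h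
    · exact absurd (Set.indicator_of_notMem hy _) h
  have htsum : ∀ y, ∑' k : ℤ, ‖a k y‖ₑ ^ 2 ≠ ⊤ := by
    intro y
    by_cases hy : y ∈ S
    · simp only [ha, Set.indicator_of_mem hy]
      exact hy
    · simp only [ha, Set.indicator_of_notMem hy]
      simp
  have htr : ∀ x : ℂ, (‖x‖ₑ ^ 2).toReal = ‖x‖ ^ 2 := by
    intro x
    rw [w4_enorm, ENNReal.toReal_ofReal (by positivity)]
  have hsum : ∀ y, Summable fun k => ‖a k y‖ ^ 2 := by
    intro y
    have h := ENNReal.summable_toReal (htsum y)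
    simpa only [htr] using h
  have hreal : ∀ y, ∑' k, ‖a k y‖ ^ 2 = (∑' k : ℤ, ‖a k y‖ₑ ^ 2).toReal := by
    intro y
    rw [ENNReal.tsum_toReal_eq fun k => by rw [w4_enorm]; exact ENNReal.ofReal_ne_top]
    simp only [htr]
  have hAn : ∀ y, An a y ^ 2 = (∑' k : ℤ, ‖a k y‖ₑ ^ 2).toReal := by
    intro y
    rw [An, Real.sq_sqrt (tsum_nonneg fun k => by positivity), hreal]
  have hma : Measurable fun y => ∑' k : ℤ, ‖a k y‖ₑ ^ 2 :=
    Measurable.tsum fun k => (ham k).enorm.pow_const 2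
  have hinta : ∫⁻ y, ∑' k : ℤ, ‖a k y‖ₑ ^ 2 = ENNReal.ofReal (‖f‖ ^ 2) := by
    rw [← hint]
    refine lintegral_congr_ae ?_
    filter_upwards [haeq] with y hy
    simp only [hy, hT]
  have hintaE : ∫⁻ y, ENNReal.ofReal (ee P y) * ∑' k : ℤ, ‖a k y‖ₑ ^ 2 =
      ENNReal.ofReal (En P gb f) := by
    rw [← hintE]
    refine lintegral_congr_ae ?_
    filter_upwards [haeq] with y hy
    simp only [hy, hT]
  have hint1 : Integrable fun y => (∑' k : ℤ, ‖a k y‖ₑ ^ 2).toReal :=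
    integrable_toReal_of_lintegral_ne_top hma.aemeasurable
      (by rw [hinta]; exact ENNReal.ofReal_ne_top)
  have hmE : Measurable fun y => ENNReal.ofReal (ee P y) * ∑' k : ℤ, ‖a k y‖ₑ ^ 2 :=
    (Pool.Agent.Helper92.HRU.ee_cont P).measurable.ennreal_ofReal.mul hma
  have hEeq : ∀ y, ee P y * An a y ^ 2 =
      (ENNReal.ofReal (ee P y) * ∑' k : ℤ, ‖a k y‖ₑ ^ 2).toReal := by
    intro y
    rw [hAn, ENNReal.toReal_mul, ENNReal.toReal_ofReal (w4_ee P y).le]
  have hn : ∀ n, ln P f n =ᵐ[volume] fl (cf P) (ze P gb) a n := by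
    intro n
    rcases Int.even_or_odd n with ⟨c, hc⟩ | ⟨c, hc⟩
    · have hev : Even n := ⟨c, hc⟩
      have h2 : n / 2 = c := by omega
      have h3 : n = 2 * c := by omega
      filter_upwards [Qp_lines P gb hg f hf c, haeq] with y hy hy2
      rw [fl, if_pos hev, h2, hy2, h3]
      exact hy.2
    · have hev : ¬ Even n := by
        rw [Int.not_even_iff_odd]
        exact ⟨c, hc⟩
      have h2 : (n + 1) / 2 = c + 1 := by omega
      have h3 : n = 2 * (c + 1) - 1 := by omega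
      filter_upwards [Qp_lines P gb hg f hf (c + 1), haeq] with y hy hy2
      rw [fl, if_neg hev, h2, hy2, h3]
      exact hy.1
  refine ⟨a, ⟨w4_cf P, w4_cf_le P, fun k => Pool.Agent.Helper92.HRU.norm_ze P gb hg k, ham, hsupp,
    hsum, ?_⟩, haeq, hn, ?_, ?_, ?_⟩
  · simp only [hreal]
    exact hint1
  · simp only [hAn]
    rw [integral_toReal hma.aemeasurable (ae_of_all _ fun y => (htsum y).lt_top), hinta,
      ENNReal.toReal_ofReal (by positivity)]
  · simp only [hEeq]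
    exact integrable_toReal_of_lintegral_ne_top hmE.aemeasurable
      (by rw [hintaE]; exact ENNReal.ofReal_ne_top)
  · simp only [hEeq]
    rw [integral_toReal hmE.aemeasurable (ae_of_all _ fun y =>
      ENNReal.mul_lt_top ENNReal.ofReal_lt_top (htsum y).lt_top), hintaE,
      ENNReal.toReal_ofReal (Pool.Agent.Helper92.HRU.En_nonneg P gb f)]

end Pool.Agent.Helper34.HRV
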