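import Pool.Agent.Helper34.HRV.Defs
import Pool.Agent.Helper92.HRU.BDefs

/-! HRV bridge piece W5 (project HRT, MP_2370de_an; hints: `/team-store/HRV_hints2.md`). Replace the `sorry`s in place. -/

set_option autoImplicit false

namespace Pool.Agent.Helper34.HRV

open MeasureTheory Complex Set
open scoped ComplexConjugate Real ENNReal
open Pool.Agent.Helper92.HRU (Par L2 AdmX X0 AA TT Q Qc Qp Qm ln al kerf kap ee eb cf sf ze Lam Wc En Iy Qs IsTrial)

private theorem w5_ln (P : Par) (x x' : ℂ) (f h : L2) :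
    ∀ᵐ y : ℝ, ∀ n : ℤ, ln P (x • f + x' • h) n y = x * ln P f n y + x' * ln P h n y := by
  rw [ae_all_iff]
  intro n
  have h1 : ∀ᵐ z : ℝ, (x • f + x' • h : L2) z = x * f z + x' * h z := by
    filter_upwards [Lp.coeFn_add (x • f) (x' • h), Lp.coeFn_smul x f, Lp.coeFn_smul x' h] with z h1 h2 h3
    rw [h1, Pi.add_apply, h2, h3, Pi.smul_apply, Pi.smul_apply, smul_eq_mul, smul_eq_mul]
  have h2 := (measurePreserving_add_left (volume : Measure ℝ)
    (Pool.Agent.Helper92.HRU.Pt P n)).quasiMeasurePreserving.ae h1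
  filter_upwards [h2] with y hy
  unfold ln
  by_cases hI : y ∈ Ioo (-(1 / 20) : ℝ) (1 / 20)
  · rw [indicator_of_mem hI, indicator_of_mem hI, indicator_of_mem hI]
    exact hy
  · rw [indicator_of_notMem hI, indicator_of_notMem hI, indicator_of_notMem hI]
    ring

/-- W5. The fibre components are linear (a.e.). -/
theorem al_linear (P : Par) (gb : ℂ) (x x' : ℂ) (f h : L2) :
    ∀ᵐ y : ℝ, ∀ k : ℤ, al P gb (x • f + x' • h) k y = x * al P gb f k y + x' * al P gb h k y := by
  filter_upwards [w5_ln P x x' f h] with y hy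
  intro k
  unfold al
  rw [hy, hy]
  ring

end Pool.Agent.Helper34.HRV
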