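import Pool.Agent.Helper34.HRV.Defs
import Pool.Agent.Helper92.HRU.BDefs
import Pool.Agent.Helper34.HRV.Wt.W2
import Pool.Agent.Helper34.HRV.Wt.W6
import Pool.Agent.Helper34.HRV.Wt.W7
import Pool.Agent.Helper34.HRV.St.S4
import Pool.Agent.Helper34.HRV.St.O3
import Pool.Agent.Helper92.HRU.Pf.PJ3
import Pool.Agent.Helper92.HRU.Pf.PE2
import Pool.Agent.Helper92.HRU.Pf.PE4
import Pool.Agent.Helper92.HRU.Pf.PF2
import Pool.Agent.Helper92.HRU.Pf.PK2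

/-! HRV bridge piece W8 (project HRT, MP_2370de_an; hints: `/team-store/HRV_hints2.md`). Replace the `sorry`s in place. -/

set_option autoImplicit false

namespace Pool.Agent.Helper34.HRV

open MeasureTheory Complex Set
open scoped ComplexConjugate Real ENNReal
open Pool.Agent.Helper92.HRU (Par L2 AdmX X0 AA TT Q Qc Qp Qm ln al kerf kap ee eb cf sf ze Lam Wc En Iy Qs IsTrial)

/-- The real inequality behind W8. -/
private theorem w8_num {E R Λ ε τ η : ℝ} (hE : 0 ≤ E) (hR : 0 ≤ R) (hΛ : 0 < Λ) (hτ : 0 < τ)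
    (hτ1 : τ ≤ 1) (hτε : 8 * τ ≤ ε) (hη : η ≤ ε)
    (h : E ≤ (1 + 2 * τ) ^ 2 * Λ⁻¹ * R + η * E) :
    (1 - ε) * E ≤ (1 + ε) * Λ⁻¹ * R := by
  have h1 : (1 + 2 * τ) ^ 2 ≤ 1 + ε := by nlinarith
  have h2 : (1 + 2 * τ) ^ 2 * (Λ⁻¹ * R) ≤ (1 + ε) * (Λ⁻¹ * R) :=
    mul_le_mul_of_nonneg_right h1 (by positivity)
  have h3 : η * E ≤ ε * E := mul_le_mul_of_nonneg_right hη hE
  nlinarith

/-- The lines are `Tl`-invariant under almost everywhere equality. -/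
private theorem w8_Tl_congr (k : ℝ → ℂ) (p δ : ℝ) {φ ψ : ℝ → ℂ} (h : φ =ᵐ[volume] ψ) :
    Tl k p δ φ = Tl k p δ ψ := by
  have h1 : Xl k p φ = Xl k p ψ := by
    funext ρ
    unfold Xl
    refine integral_congr_ae ?_
    filter_upwards [h] with y hy
    rw [hy]
  unfold Tl
  rw [h1]

private theorem w8_Wc_pos : 0 < Wc := by
  have hW0 : 0 < W0 := Wy_near.1
  rw [W0_eq] at hW0
  by_contra hne
  have h8 : (0 : ℝ) < 8 * π ^ 2 := by positivity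
  nlinarith [mul_nonneg h8.le (sub_nonneg.2 (not_lt.1 hne))]

/-- Error terms. -/
private theorem w8_err {c CB C6 L Λ E A X M2 W D : ℝ} (hc : 0 < c) (hCB : 0 < CB) (hC6 : 0 < C6)
    (hL : 100 ≤ L) (hΛ : c * L ^ 2 ≤ Λ) (hE : 0 ≤ E) (hA : 0 ≤ A) (hX : 0 ≤ X) (hM : 0 ≤ M2)
    (hW : 0 < W) (hMW : M2 * Λ ≤ W) (hA2 : A ^ 2 ≤ Λ * E) (hX2 : X ^ 2 ≤ C6 * L * E)
    (hD : 0 ≤ D) (hD1 : D ≤ L⁻¹) :
    CB * M2 * A * X + CB * M2 * D * A ^ 2 ≤
      (CB * W * Real.sqrt (C6 / c) + CB * W) * (Real.sqrt L)⁻¹ * E := by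
  have hL0 : 0 < L := by linarith
  have hΛ0 : 0 < Λ := lt_of_lt_of_le (by positivity) hΛ
  have hsL : 0 < Real.sqrt L := Real.sqrt_pos.2 hL0
  have hsL2 : Real.sqrt L ^ 2 = L := Real.sq_sqrt hL0.le
  have hsC : 0 ≤ Real.sqrt (C6 / c) := Real.sqrt_nonneg _
  have hsC2 : Real.sqrt (C6 / c) ^ 2 = C6 / c := Real.sq_sqrt (by positivity)
  -- `A X ≤ Λ √(C6/c) L^{-1/2} E`
  have h1 : A * X ≤ Λ * Real.sqrt (C6 / c) * (Real.sqrt L)⁻¹ * E := by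
    have h0 : 0 ≤ Λ * Real.sqrt (C6 / c) * (Real.sqrt L)⁻¹ * E := by positivity
    refine (sq_le_sq₀ (mul_nonneg hA hX) h0).1 ?_
    calc (A * X) ^ 2 = A ^ 2 * X ^ 2 := by ring
      _ ≤ (Λ * E) * (C6 * L * E) := by gcongr
      _ = C6 * L * Λ * E ^ 2 := by ring
      _ ≤ (C6 / c) * L⁻¹ * Λ * Λ * E ^ 2 := by
          have h2 : C6 * L ≤ (C6 / c) * L⁻¹ * Λ := by
            calc C6 * L = (C6 / c) * L⁻¹ * (c * L ^ 2) := by
                  field_simp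
              _ ≤ (C6 / c) * L⁻¹ * Λ := by gcongr
          gcongr
      _ = (Λ * Real.sqrt (C6 / c) * (Real.sqrt L)⁻¹ * E) ^ 2 := by
          rw [mul_pow, mul_pow, mul_pow, hsC2, inv_pow, hsL2]
          ring
  have h2 : CB * M2 * A * X ≤ CB * W * Real.sqrt (C6 / c) * (Real.sqrt L)⁻¹ * E := by
    calc CB * M2 * A * X = CB * M2 * (A * X) := by ring
      _ ≤ CB * M2 * (Λ * Real.sqrt (C6 / c) * (Real.sqrt L)⁻¹ * E) := by gcongr
      _ = CB * (M2 * Λ) * Real.sqrt (C6 / c) * (Real.sqrt L)⁻¹ * E := by ring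
      _ ≤ CB * W * Real.sqrt (C6 / c) * (Real.sqrt L)⁻¹ * E := by gcongr
  have h3 : D ≤ (Real.sqrt L)⁻¹ := by
    refine hD1.trans ?_
    rw [inv_le_inv₀ hL0 hsL]
    rw [Real.sqrt_le_left hL0.le]
    nlinarith
  have h4 : CB * M2 * D * A ^ 2 ≤ CB * W * (Real.sqrt L)⁻¹ * E := by
    calc CB * M2 * D * A ^ 2 ≤ CB * M2 * (Real.sqrt L)⁻¹ * (Λ * E) := by gcongr
      _ = CB * (M2 * Λ) * (Real.sqrt L)⁻¹ * E := by ring
      _ ≤ CB * W * (Real.sqrt L)⁻¹ * E := by gcongr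
  calc CB * M2 * A * X + CB * M2 * D * A ^ 2
      ≤ CB * W * Real.sqrt (C6 / c) * (Real.sqrt L)⁻¹ * E + CB * W * (Real.sqrt L)⁻¹ * E :=
        add_le_add h2 h4
    _ = _ := by ring

/-- W8. Null vectors are nearly optimal. -/
theorem star_ker : ∃ κ : ℝ, 0 < κ ∧ κ ≤ 1 ∧ ∀ ε : ℝ, 0 < ε → ∃ τ L0 : ℝ, 0 < τ ∧ τ ≤ 1 ∧
    ∀ (P : Par) (gb : ℂ) (r : ℝ) (ξ : ℝ → ℂ), L0 ≤ P.L → ‖gb‖ = 1 → 0 ≤ r →
    r ^ 2 * Wc * Lam P ≤ (1 + 2 * τ) ^ 2 → AdmX P r ξ → ∀ u : L2, AA P gb ξ u = 0 →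
    ∀ a : ℤ → ℝ → ℂ, Fib (cf P) (ze P gb) a →
    (∀ n, ln P (Qp P gb u) n =ᵐ[volume] fl (cf P) (ze P gb) a n) →
    Integrable (fun y => ee P y * An a y ^ 2) →
    (∫ y, ee P y * An a y ^ 2) = En P gb (Qp P gb u) → Star (ee P) (Lam P) κ ε a := by
  obtain ⟨c, CL, hc, hCL, hLam⟩ := Pool.Agent.Helper92.HRU.Lam_bounds
  have hWc : 0 < Wc := w8_Wc_pos
  set K : ℝ := Real.sqrt (9 / (Wc * c)) with hK
  have hK0 : 0 < K := Real.sqrt_pos.2 (by positivity)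
  have hK2 : K ^ 2 = 9 / (Wc * c) := Real.sq_sqrt (by positivity)
  obtain ⟨C2, hC2, hbal⟩ := Pool.Agent.Helper92.HRU.balance K hK0
  obtain ⟨h, CB, hh0, hh1, hCB, hB7⟩ := B7up
  obtain ⟨C6, hC6, hcs⟩ := cs_band
  refine ⟨(1 - h) / 2, by linarith, by linarith, fun ε hε => ?_⟩
  set W : ℝ := 9 / (16 * π ^ 2 * Wc) with hW
  have hW0 : 0 < W := by positivity
  set CT : ℝ := (CB * W * Real.sqrt (C6 / c) + CB * W) + 2 * C2 with hCT
  have hCT0 : 0 < CT := by positivity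
  refine ⟨min (ε / 8) 1, 100 * K + 2 * C2 + (CT / ε) ^ 2, by positivity, min_le_right _ _, ?_⟩
  intro P gb r ξ hL hgb hr hrL hX u hu a ha hal hint hEa
  have hτ0 : 0 < min (ε / 8) 1 := by positivity
  have hτ1 : min (ε / 8) 1 ≤ 1 := min_le_right _ _
  have hτ8 : 8 * min (ε / 8) 1 ≤ ε := by
    have := min_le_left (ε / 8) 1
    linarith
  generalize min (ε / 8) 1 = τ at *
  have hP := P.hL
  have hL0 : (0 : ℝ) < P.L := by linarith
  have hq0 : 0 ≤ (CT / ε) ^ 2 := by positivity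
  have hLam0 : 0 < Lam P := lt_of_lt_of_le (by positivity) (hLam P).1
  have hr9 : r ^ 2 * Wc * Lam P ≤ 9 := hrL.trans (by nlinarith)
  have hr2 : r ^ 2 ≤ (K / P.L) ^ 2 := by
    rw [div_pow, hK2, le_div_iff₀ (by positivity), le_div_iff₀ (by positivity)]
    have h1 := (hLam P).1
    calc r ^ 2 * P.L ^ 2 * (Wc * c) = r ^ 2 * Wc * (c * P.L ^ 2) := by ring
      _ ≤ r ^ 2 * Wc * Lam P := by gcongr
      _ ≤ 9 := hr9
  have hrK : r ≤ K / P.L := (sq_le_sq₀ hr (by positivity)).1 hr2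
  have hr100 : r ≤ 1 / 100 := by
    refine hrK.trans ?_
    rw [div_le_div_iff₀ hL0 (by norm_num)]
    nlinarith
  have hb := hbal P gb r ξ hgb hr hr100 hrK hX u
  rw [hu, norm_zero, zero_mul, add_zero, add_zero] at hb
  have hEs := Pool.Agent.Helper92.HRU.En_split P gb hgb u
  have hEu0 := Pool.Agent.Helper92.HRU.En_nonneg P gb u
  set E : ℝ := En P gb (Qp P gb u) with hE
  have hE0 : 0 ≤ E := Pool.Agent.Helper92.HRU.En_nonneg P gb _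
  have hEu : En P gb u ≤ 2 * E := by
    have h2 : C2 * (P.L⁻¹ * En P gb u) ≤ 1 / 2 * En P gb u := by
      rw [← mul_assoc]
      refine mul_le_mul_of_nonneg_right ?_ hEu0
      rw [mul_inv_le_iff₀ hL0]
      linarith
    linarith [hb.1]
  -- the kernel
  obtain ⟨k, hkm, hkb, -, -, hkX, -⟩ := Pool.Agent.Helper92.HRU.exists_kernel P r hr ξ hX
  set M : ℝ := r / (4 * π) with hM
  have hker : Ker M ({u : ℝ | 1 / 2 < |u| ∧ |u| < 3 / 2}.indicator k) := by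
    have hms : MeasurableSet {u : ℝ | 1 / 2 < |u| ∧ |u| < 3 / 2} :=
      (measurableSet_lt measurable_const measurable_norm).inter
        (measurableSet_lt measurable_norm measurable_const)
    refine ⟨hkm.indicator hms, fun v => ?_, fun v hv => ?_⟩
    · by_cases hv : v ∈ {u : ℝ | 1 / 2 < |u| ∧ |u| < 3 / 2}
      · rw [indicator_of_mem hv]
        refine (hkb v).trans ?_
        have : Pool.Agent.Helper92.HRU.kaph P v = 1 := if_pos hv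
        rw [this, mul_one]
      · rw [indicator_of_notMem hv, norm_zero]
        positivity
    · by_contra hv'
      exact hv (indicator_of_notMem (s := {u : ℝ | 1 / 2 < |u| ∧ |u| < 3 / 2}) hv' k)
  set k0 : ℝ → ℂ := {u : ℝ | 1 / 2 < |u| ∧ |u| < 3 / 2}.indicator k with hk0
  have hT := TT_lines P ξ M k0 hker (Qp P gb u) (Pool.Agent.Helper92.HRU.Q_Qp P gb hgb u)
    (hkX (Qp P gb u))
  have hT2 : (fun n => sg n * Tl k0 (Pt P.del n) (dl P.del n) (ln P (Qp P gb u) n)) =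
      fun n => sg n * Tl k0 (Pt P.del n) (dl P.del n) (fl (cf P) (ze P gb) a n) := by
    funext n
    rw [w8_Tl_congr _ _ _ (hal n)]
  rw [hT2] at hT
  have hdel : |P.del| ≤ P.L⁻¹ := by
    have h1 : |P.del| ≤ (P.L ^ 40)⁻¹ := P.hdel
    refine h1.trans ?_
    rw [inv_le_inv₀ (by positivity) hL0]
    exact le_self_pow₀ (by linarith) (by norm_num)
  have hdel2 : |P.del| ≤ 1 / 100 := by
    refine hdel.trans ?_
    rw [inv_le_comm₀ hL0 (by norm_num)]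
    norm_num
    exact hP
  have hB := (hB7 M P.del k0 (cf P) (ze P gb) a hker hdel2 ha).2
  rw [hT.tsum_eq] at hB
  obtain ⟨hcs1, hcs2⟩ := hcs P (ze P gb) a ha hint
  rw [hEa] at hcs1 hcs2
  have hA0 : 0 ≤ a1 a := integral_nonneg fun y => Real.sqrt_nonneg _
  have hX0 : 0 ≤ ∫ y, (|cf P y| + |y|) * An a y :=
    integral_nonneg fun y => mul_nonneg (by positivity) (Real.sqrt_nonneg _)
  have hM2 : M ^ 2 * Lam P ≤ W := by
    rw [hM, hW, le_div_iff₀ (by positivity), div_pow]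
    calc r ^ 2 / (4 * π) ^ 2 * Lam P * (16 * π ^ 2 * Wc) = r ^ 2 * Wc * Lam P := by
          field_simp
          ring
      _ ≤ 9 := hr9
  have herr := w8_err hc hCB hC6 hP (hLam P).1 hE0 hA0 hX0 (sq_nonneg M) hW0 hM2 hcs1 hcs2
    (abs_nonneg P.del) hdel
  have hmain : 2 * M ^ 2 * W0 ≤ (1 + 2 * τ) ^ 2 * (Lam P)⁻¹ := by
    rw [← div_eq_mul_inv, le_div_iff₀ hLam0, W0_eq, hM, div_pow]
    calc 2 * (r ^ 2 / (4 * π) ^ 2) * (8 * π ^ 2 * Wc) * Lam P = r ^ 2 * Wc * Lam P := by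
          field_simp
          ring
      _ ≤ _ := hrL
  set S : ℝ := ∑' j, Qi a j ^ 2 with hS
  have hS0 : 0 ≤ S := tsum_nonneg fun j => sq_nonneg _
  set R : ℝ := a1 a ^ 2 - (1 - h) / 2 * (a1 a ^ 2 - S) with hR
  have hR0 : 0 ≤ R := by
    have : R = (1 + h) / 2 * a1 a ^ 2 + (1 - h) / 2 * S := by
      rw [hR]
      ring
    rw [this]
    have h1 : 0 ≤ (1 + h) / 2 := by linarith
    have h2 : 0 ≤ (1 - h) / 2 := by linarith
    positivity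
  have hsL : 0 < Real.sqrt P.L := Real.sqrt_pos.2 hL0
  have hη : CT * (Real.sqrt P.L)⁻¹ ≤ ε := by
    rw [mul_inv_le_iff₀ hsL, mul_comm, ← div_le_iff₀ hε]
    refine Real.le_sqrt_of_sq_le ?_
    linarith
  refine ⟨hint, ?_⟩
  rw [hEa]
  refine w8_num hE0 hR0 hLam0 hτ0 hτ1 hτ8 hη ?_
  have h1 : 2 * M ^ 2 * W0 * R ≤ (1 + 2 * τ) ^ 2 * (Lam P)⁻¹ * R :=
    mul_le_mul_of_nonneg_right hmain hR0
  have h2 := (abs_le.1 hb.2).2
  have h3 : C2 * ((Real.sqrt P.L)⁻¹ * En P gb u) ≤ 2 * C2 * (Real.sqrt P.L)⁻¹ * E := by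
    calc C2 * ((Real.sqrt P.L)⁻¹ * En P gb u) ≤ C2 * ((Real.sqrt P.L)⁻¹ * (2 * E)) := by gcongr
      _ = _ := by ring
  calc E ≤ (TT P ξ (Qp P gb u) (Qp P gb u)).re + 2 * C2 * (Real.sqrt P.L)⁻¹ * E := by linarith
    _ ≤ (1 + 2 * τ) ^ 2 * (Lam P)⁻¹ * R +
        (CB * W * Real.sqrt (C6 / c) + CB * W) * (Real.sqrt P.L)⁻¹ * E +
        2 * C2 * (Real.sqrt P.L)⁻¹ * E := by linarith
    _ = _ := by
      rw [hCT]
      ring

end Pool.Agent.Helper34.HRV
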