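import Pool.Agent.Helper34.HRV.Defs
import Pool.Agent.Helper92.HRU.BDefs
import Pool.Agent.Helper34.HRV.Wt.W7
import Pool.Agent.Helper34.HRV.St.O3
import Pool.Agent.Helper92.HRU.Pf.PJ3
import Pool.Agent.Helper92.HRU.Pf.PE2
import Pool.Agent.Helper92.HRU.Pf.PE4
import Pool.Agent.Helper92.HRU.Pf.PF1
import Pool.Agent.Helper92.HRU.Pf.PF2
import Pool.Agent.Helper92.HRU.Pf.PQ2

/-! HRV bridge piece W8b (project HRT, MP_2370de_an; hints: `/team-store/HRV_hints2.md`). Replace the `sorry`s in place. -/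

set_option autoImplicit false

namespace Pool.Agent.Helper34.HRV

open MeasureTheory Complex Set
open scoped ComplexConjugate Real ENNReal
open Pool.Agent.Helper92.HRU (Par L2 AdmX X0 AA TT Q Qc Qp Qm ln al kerf kap ee eb cf sf ze Lam Wc En Iy Qs IsTrial)

/-- W8b. `u ↦ Q₊ u` is injective on the kernel. -/
theorem ker_inj : ∃ L0 : ℝ, ∀ (P : Par) (gb : ℂ) (r : ℝ) (ξ : ℝ → ℂ), L0 ≤ P.L → ‖gb‖ = 1 → 0 ≤ r →
    r ^ 2 * Wc * Lam P ≤ 9 → AdmX P r ξ → ∀ u : L2, AA P gb ξ u = 0 → Qp P gb u = 0 → u = 0 := by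
  obtain ⟨c, CL, hc, hCL, hLam⟩ := Pool.Agent.Helper92.HRU.Lam_bounds
  have hW0 : 0 < W0 := Wy_near.1
  have hWc : 0 < Wc := by
    have h := W0_eq
    rw [h] at hW0
    by_contra hne
    have h8 : (0 : ℝ) < 8 * π ^ 2 := by positivity
    nlinarith [mul_nonneg h8.le (sub_nonneg.2 (not_lt.1 hne))]
  set K : ℝ := Real.sqrt (9 / (Wc * c)) with hK
  have hK0 : 0 < K := Real.sqrt_pos.2 (by positivity)
  have hK2 : K ^ 2 = 9 / (Wc * c) := Real.sq_sqrt (by positivity)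
  obtain ⟨C1, hC1, hkey⟩ := Pool.Agent.Helper92.HRU.keyIneq K hK0
  obtain ⟨C2, hC2, hbal⟩ := Pool.Agent.Helper92.HRU.balance K hK0
  refine ⟨100 * K + 2 * C2, fun P gb r ξ hL hgb hr hrL hX u hu hp => ?_⟩
  have hP := P.hL
  have hL0 : (0 : ℝ) < P.L := by linarith
  have hr2 : r ^ 2 ≤ (K / P.L) ^ 2 := by
    rw [div_pow, hK2, le_div_iff₀ (by positivity), le_div_iff₀ (by positivity)]
    have h1 := (hLam P).1
    calc r ^ 2 * P.L ^ 2 * (Wc * c) = r ^ 2 * Wc * (c * P.L ^ 2) := by ring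
      _ ≤ r ^ 2 * Wc * Lam P := by gcongr
      _ ≤ 9 := hrL
  have hrK : r ≤ K / P.L := (sq_le_sq₀ hr (by positivity)).1 hr2
  have hr100 : r ≤ 1 / 100 := by
    refine hrK.trans ?_
    rw [div_le_div_iff₀ hL0 (by norm_num)]
    nlinarith
  have hQm := (hbal P gb r ξ hgb hr hr100 hrK hX u).1
  rw [hu, norm_zero, zero_mul, add_zero] at hQm
  have hE := Pool.Agent.Helper92.HRU.En_split P gb hgb u
  have hEp : En P gb (Qp P gb u) = 0 := by
    rw [Pool.Agent.Helper92.HRU.En_Qp P gb hgb u, hp, map_zero, norm_zero]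
    norm_num
  have hE0 := Pool.Agent.Helper92.HRU.En_nonneg P gb u
  rw [hEp, zero_add] at hE
  have hE1 : En P gb u = 0 := by
    have h2 : C2 * (P.L⁻¹ * En P gb u) ≤ 1 / 2 * En P gb u := by
      rw [← mul_assoc]
      refine mul_le_mul_of_nonneg_right ?_ hE0
      rw [mul_inv_le_iff₀ hL0]
      linarith
    linarith
  have hg : 0 < P.g := by
    unfold Pool.Agent.Helper92.HRU.Par.g Pool.Agent.Helper92.HRU.Par.s
      Pool.Agent.Helper92.HRU.Par.gh
    positivity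
  have hQ : ‖Q P u‖ = 0 := by
    have h := Pool.Agent.Helper92.HRU.En_ge P gb hgb u
    rw [hE1] at h
    by_contra hne
    have : 0 < ‖Q P u‖ ^ 2 := by positivity
    nlinarith
  have hQc : ‖Qc P u‖ = 0 := by
    have h := (hkey P gb r ξ hgb hr hr100 hrK hX u).1
    rw [hu, map_zero, norm_zero, hE1, Real.sqrt_zero, hQ] at h
    have := norm_nonneg (Qc P u)
    linarith
  rw [← Pool.Agent.Helper92.HRU.Q_add_Qc P u, norm_eq_zero.1 hQ, norm_eq_zero.1 hQc, add_zero]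

end Pool.Agent.Helper34.HRV
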