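import Pool.Agent.Helper34.HRV.Defs
import Pool.Agent.Helper92.HRU.BDefs
import Pool.Agent.Helper34.HRV.Wt.W4
import Pool.Agent.Helper34.HRV.Wt.W5
import Pool.Agent.Helper34.HRV.Wt.W8
import Pool.Agent.Helper34.HRV.Wt.W8b
import Pool.Agent.Helper34.HRV.St.D1
import Pool.Agent.Helper34.HRV.St.D2
import Pool.Agent.Helper34.HRV.St.S1
import Pool.Agent.Helper92.HRU.Pf.PE1
import Pool.Agent.Helper92.HRU.Pf.PE2
import Pool.Agent.Helper92.HRU.Pf.PJ3

/-! HRV bridge piece W9 (project HRT, MP_2370de_an). -/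

set_option autoImplicit false

namespace Pool.Agent.Helper34.HRV

open MeasureTheory Complex Set
open scoped ComplexConjugate Real ENNReal
open Pool.Agent.Helper92.HRU (Par L2 AdmX X0 AA TT Q Qc Qp Qm ln al kerf kap ee eb cf sf ze Lam Wc En Iy Qs IsTrial
  ee_ge ee_cont e2_int Lam_bounds Qp_Qp)

theorem g_pos' (P : Par) : 0 < P.g := by
  have hL : 0 < P.L := by linarith [P.hL]
  unfold Par.g Par.s Par.gh
  positivity

/-- the profile is integrable -/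
theorem inv_sq_int (P : Par) : IntegrableOn (fun y => ((ee P y)⁻¹) ^ 2)
    (Ioo (-(1 / 20) : ℝ) (1 / 20)) := by
  have hg := g_pos' P
  have hm : Measurable fun y => ((ee P y)⁻¹) ^ 2 := ((ee_cont P).measurable.inv).pow_const 2
  refine Measure.integrableOn_of_bounded (M := (P.g⁻¹) ^ 2) (by simp) hm.aestronglyMeasurable ?_
  refine ae_of_all _ fun y => ?_
  have h1 := ee_ge P y
  have h2 : 0 < ee P y := hg.trans_le h1
  rw [Real.norm_of_nonneg (by positivity)]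
  have : (ee P y)⁻¹ ≤ P.g⁻¹ := inv_anti₀ hg h1
  exact pow_le_pow_left₀ (by positivity) this 2

theorem inv_sq_ge {c : ℝ} (P : Par)
    (h : ENNReal.ofReal (c * Lam P / P.g) ≤ ∫⁻ y in Iy, ENNReal.ofReal ((ee P y ^ 2)⁻¹)) :
    c * Lam P / P.g ≤ ∫ y in Ioo (-(1 / 20) : ℝ) (1 / 20), ((ee P y)⁻¹) ^ 2 := by
  have h1 : ∫⁻ y in Iy, ENNReal.ofReal ((ee P y ^ 2)⁻¹) =
      ENNReal.ofReal (∫ y in Ioo (-(1 / 20) : ℝ) (1 / 20), ((ee P y)⁻¹) ^ 2) := by
    rw [ofReal_integral_eq_lintegral_ofReal (inv_sq_int P) (ae_of_all _ fun y => by positivity)]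
    refine lintegral_congr fun y => ?_
    rw [inv_pow]
  rw [h1] at h
  rcases le_or_gt (c * Lam P / P.g) 0 with h0 | h0
  · exact h0.trans (integral_nonneg fun y => by positivity)
  · exact (ENNReal.ofReal_le_ofReal_iff' .. |>.1 h).resolve_right (not_le.2 h0)

/-- W9. (E3), normalised (helper92's `E30`). -/
theorem E30 : ∃ τ L0 : ℝ, 0 < τ ∧ τ ≤ 1 ∧ ∀ (P : Par) (gb : ℂ) (r : ℝ) (ξ : ℝ → ℂ), L0 ≤ P.L →
    ‖gb‖ = 1 → 0 ≤ r → r ^ 2 * Wc * Lam P ≤ (1 + 2 * τ) ^ 2 → AdmX P r ξ → ∀ f h : L2, f ≠ 0 →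
    AA P gb ξ f = 0 → AA P gb ξ h = 0 → ∃ a : ℂ, h = a • f := by
  obtain ⟨κ, hκ0, hκ1, hstar⟩ := star_ker
  obtain ⟨c0, hc0, he2⟩ := e2_int
  obtain ⟨ε0, hε0, hconc⟩ := star_conc κ c0 (1 / 100) hκ0 hκ1 hc0 (by norm_num)
  obtain ⟨τ, L1, hτ0, hτ1, hs⟩ := hstar ε0 hε0
  obtain ⟨L3, hinj⟩ := ker_inj
  refine ⟨τ, max L1 L3, hτ0, hτ1, ?_⟩
  intro P gb r ξ hL hgb hr hrW hξ f h hf hAf hAh
  have hL1 : L1 ≤ P.L := (le_max_left _ _).trans hL
  have hL3 : L3 ≤ P.L := (le_max_right _ _).trans hL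
  have hr9 : r ^ 2 * Wc * Lam P ≤ 9 := by
    refine hrW.trans ?_
    nlinarith
  have hinj' : ∀ u : L2, AA P gb ξ u = 0 → u ≠ 0 → Qp P gb u ≠ 0 := fun u h1 h2 h3 =>
    h2 (hinj P gb r ξ hL3 hgb hr hr9 hξ u h1 h3)
  by_contra hcon
  have hcon' : ∀ a : ℂ, h ≠ a • f := fun a ha => hcon ⟨a, ha⟩
  -- first unit vector
  obtain ⟨e1, hAe1, hn1, hsp⟩ : ∃ e1 : L2, AA P gb ξ e1 = 0 ∧ ‖Qp P gb e1‖ = 1 ∧
      ∀ c : ℂ, h ≠ c • e1 := by
    have hF1 : ‖Qp P gb f‖ ≠ 0 := norm_ne_zero_iff.2 (hinj' f hAf hf)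
    refine ⟨((‖Qp P gb f‖ : ℂ)⁻¹) • f, ?_, ?_, ?_⟩
    · rw [map_smul, hAf, smul_zero]
    · rw [map_smul, norm_smul, norm_inv, Complex.norm_real, norm_norm, inv_mul_cancel₀ hF1]
    · intro c hc
      rw [smul_smul] at hc
      exact hcon' _ hc
  -- second unit vector
  obtain ⟨e2, hAe2, hn2, horth⟩ : ∃ e2 : L2, AA P gb ξ e2 = 0 ∧ ‖Qp P gb e2‖ = 1 ∧
      inner ℂ (Qp P gb e1) (Qp P gb e2) = (0 : ℂ) := by
    have hAh2 : AA P gb ξ (h - (inner ℂ (Qp P gb e1) (Qp P gb h) : ℂ) • e1) = 0 := by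
      rw [map_sub, map_smul, hAh, hAe1, smul_zero, sub_zero]
    have hne : h - (inner ℂ (Qp P gb e1) (Qp P gb h) : ℂ) • e1 ≠ 0 := by
      intro h0
      rw [sub_eq_zero] at h0
      exact hsp _ h0
    have hQh2 : Qp P gb (h - (inner ℂ (Qp P gb e1) (Qp P gb h) : ℂ) • e1) =
        Qp P gb h - (inner ℂ (Qp P gb e1) (Qp P gb h) : ℂ) • Qp P gb e1 := by
      rw [map_sub, map_smul]
    have ho : inner ℂ (Qp P gb e1) (Qp P gb (h - (inner ℂ (Qp P gb e1) (Qp P gb h) : ℂ) • e1)) =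
        (0 : ℂ) := by
      rw [hQh2, inner_sub_right, inner_smul_right, inner_self_eq_norm_sq_to_K, hn1]
      simp
    have hG1 := norm_ne_zero_iff.2 (hinj' _ hAh2 hne)
    generalize (h - (inner ℂ (Qp P gb e1) (Qp P gb h) : ℂ) • e1) = h2 at *
    refine ⟨((‖Qp P gb h2‖ : ℂ)⁻¹) • h2, ?_, ?_, ?_⟩
    · rw [map_smul, hAh2, smul_zero]
    · rw [map_smul, norm_smul, norm_inv, Complex.norm_real, norm_norm, inv_mul_cancel₀ hG1]
    · rw [map_smul, inner_smul_right, ho, mul_zero]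
  -- families
  have hQ : ∀ x : L2, Qp P gb (Qp P gb x) = Qp P gb x := Qp_Qp P gb hgb
  obtain ⟨a, haF, haal, -, -, -, -⟩ := exists_fam P gb hgb (Qp P gb e1) (hQ _)
  obtain ⟨b, hbF, hbal, -, -, -, -⟩ := exists_fam P gb hgb (Qp P gb e2) (hQ _)
  have hgpos := g_pos' P
  have hI := inv_sq_int P
  have hLam0 : 0 < Lam P := by
    obtain ⟨cc, CC, h1, h2, h3⟩ := Lam_bounds
    have := (h3 P).1
    have hLp : 0 < P.L := by linarith [P.hL]
    exact lt_of_lt_of_le (by positivity) this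
  have hge := inv_sq_ge P (he2 P)
  have hIpos : 0 < ∫ y in Ioo (-(1 / 20) : ℝ) (1 / 20), ((ee P y)⁻¹) ^ 2 :=
    lt_of_lt_of_le (by positivity) hge
  -- the key property of combinations
  have key : ∀ x x' : ℂ, ‖x‖ ^ 2 + ‖x'‖ ^ 2 = 1 →
      (∫ y, An (fun i y => x * a i y + x' * b i y) y ^ 2) = 1 ∧ ∃ j : ℤ,
      (∫ y, (An (fun i y => x * a i y + x' * b i y) y ^ 2 - ‖x * a j y + x' * b j y‖ ^ 2)) ≤ 1 / 100 ∧
      (∫ y, |‖x * a j y + x' * b j y‖ ^ 2 - (Ioo (-(1 / 20) : ℝ) (1 / 20)).indicator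
        (fun y => ((ee P y)⁻¹) ^ 2 / ∫ y in Ioo (-(1 / 20) : ℝ) (1 / 20), ((ee P y)⁻¹) ^ 2) y|)
        ≤ 1 / 100 := by
    intro x x' hx
    set u : L2 := x • e1 + x' • e2 with hu
    have hAu : AA P gb ξ u = 0 := by
      rw [hu, map_add, map_smul, map_smul, hAe1, hAe2, smul_zero, smul_zero, add_zero]
    have hQu : Qp P gb u = x • Qp P gb e1 + x' • Qp P gb e2 := by
      rw [hu, map_add, map_smul, map_smul]
    have hnu : ‖Qp P gb u‖ ^ 2 = 1 := by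
      have h1 : inner ℂ (x • Qp P gb e1) (x' • Qp P gb e2) = (0 : ℂ) := by
        rw [inner_smul_left, inner_smul_right, horth]; simp
      rw [hQu, ← hx, sq, norm_add_sq_eq_norm_sq_add_norm_sq_of_inner_eq_zero _ _ h1, norm_smul,
        norm_smul, hn1, hn2]
      ring
    obtain ⟨d, hdF, hdal, hdln, hdn, hdI, hdE⟩ := exists_fam P gb hgb (Qp P gb u) (hQ _)
    have hS := hs P gb r ξ hL1 hgb hr hrW hξ u hAu d hdF hdln hdI hdE
    obtain ⟨j, hj1, hj2⟩ := hconc ε0 P.g (Lam P) (ee P) (cf P) (ze P gb) d hε0.le le_rfl hgpos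
      (ee_cont P).measurable (ee_ge P) rfl hge hdF hS (by rw [hdn, hnu])
    have hae : ∀ᵐ y : ℝ, ∀ k, d k y = x * a k y + x' * b k y := by
      have hlin := al_linear P gb x x' (Qp P gb e1) (Qp P gb e2)
      rw [← hQu] at hlin
      filter_upwards [hdal, haal, hbal, hlin] with y h1 h2 h3 h4 k
      rw [h1, h4, h2, h3]
    have hAn : ∀ᵐ y : ℝ, An d y = An (fun i y => x * a i y + x' * b i y) y := by
      filter_upwards [hae] with y hy
      simp only [An]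
      congr 1
      exact tsum_congr fun k => by rw [hy k]
    refine ⟨?_, j, ?_, ?_⟩
    · rw [← hnu, ← hdn]
      refine integral_congr_ae ?_
      filter_upwards [hAn] with y hy
      simp only [hy]
    · refine le_trans (le_of_eq ?_) hj1
      refine integral_congr_ae ?_
      filter_upwards [hAn, hae] with y hy hy2
      simp only [hy, hy2 j]
    · refine le_trans (le_of_eq ?_) hj2
      refine integral_congr_ae ?_
      filter_upwards [hae] with y hy2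
      simp only [hy2 j]
  refine no_two haF hbF ((Ioo (-(1 / 20) : ℝ) (1 / 20)).indicator
        (fun y => ((ee P y)⁻¹) ^ 2 / ∫ y in Ioo (-(1 / 20) : ℝ) (1 / 20), ((ee P y)⁻¹) ^ 2))
    ?_ ?_ ?_ (fun x x' hx => (key x x' hx).2) (fun x x' hx => (key x x' hx).1)
  · intro y
    exact indicator_nonneg (fun z _ => by positivity) y
  · rw [integrable_indicator_iff measurableSet_Ioo]
    exact hI.div_const _
  · rw [integral_indicator measurableSet_Ioo, integral_div, div_self hIpos.ne']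

end Pool.Agent.Helper34.HRV
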